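import Mathlib

/-!
# Definitions: the Kalton-Peck space, exact sequences and compatible pairs
-/

open scoped ENNReal NNReal

set_option autoImplicit false

namespace Pool.Agent.Lib.MP_23ded2_an

/-- Finitely supported real sequences. -/
abbrev C00 : Type := ℕ →₀ ℝ

/-- The real Hilbert space `ℓ₂`. -/
abbrev L2 : Type := lp (fun _ : ℕ => ℝ) 2

/-- The `ℓ₂`-norm of a finitely supported sequence. -/
noncomputable def nrm (x : C00) : ℝ := Real.sqrt (∑ n ∈ x.support, (x n) ^ 2)

/-- The Kalton-Peck map: `(KP x) n = x n * log (|x n| / ‖x‖₂)` (so `KP 0 = 0`; note `0 * _ = 0`). -/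
noncomputable def KP (x : C00) : C00 :=
  x.mapRange (fun t => t * Real.log (|t| / nrm x)) (by simp)

/-- The Kalton-Peck quasi-norm `‖y - KP x‖₂ + ‖x‖₂` of a pair `(y, x)`. -/
noncomputable def qn (p : C00 × C00) : ℝ := nrm (p.1 - KP p.2) + nrm p.2

/-- `(Z, ι)` is a (Banach) model of the Kalton-Peck space `Z₂`: `Z` is a Banach space and
`ι` is a linear map from pairs of finitely supported sequences to `Z` with dense range such
that the norm of `Z` is equivalent, through `ι`, to the Kalton-Peck quasi-norm. In other words,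
`Z` is the completion of the space of pairs for the Kalton-Peck quasi-norm, up to an
equivalent norm. -/
structure IsKaltonPeck (Z : Type) [NormedAddCommGroup Z] [NormedSpace ℝ Z]
    (ι : (C00 × C00) →ₗ[ℝ] Z) : Prop where
  complete : CompleteSpace Z
  dense : DenseRange ι
  lower : ∃ c : ℝ, 0 < c ∧ ∀ p : C00 × C00, c * qn p ≤ ‖ι p‖
  upper : ∃ C : ℝ, ∀ p : C00 × C00, ‖ι p‖ ≤ C * qn p

/-- `0 → H → Z → H → 0`, with maps `j` and `q`, is an exact sequence: `j` is an isomorphic
embedding, `q` is onto, and the kernel of `q` is the range of `j`. -/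
structure IsExactSeq {H Z : Type} [NormedAddCommGroup H] [NormedSpace ℝ H]
    [NormedAddCommGroup Z] [NormedSpace ℝ Z] (j : H →L[ℝ] Z) (q : Z →L[ℝ] H) : Prop where
  embedding : ∃ c : ℝ, 0 < c ∧ ∀ y : H, c * ‖y‖ ≤ ‖j y‖
  surjective : Function.Surjective q
  exact : ∀ z : Z, q z = 0 ↔ ∃ y : H, j y = z

/-- The pair `(T, U)` is compatible with the sequence `(j, q)`: some bounded operator `τ` on `Z`
satisfies `τ ∘ j = j ∘ T` and `q ∘ τ = U ∘ q`. -/
def IsCompatible {H Z : Type} [NormedAddCommGroup H] [NormedSpace ℝ H]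
    [NormedAddCommGroup Z] [NormedSpace ℝ Z] (j : H →L[ℝ] Z) (q : Z →L[ℝ] H)
    (T U : H →L[ℝ] H) : Prop :=
  ∃ τ : Z →L[ℝ] Z, (∀ y : H, τ (j y) = j (T y)) ∧ (∀ z : Z, q (τ z) = U (q z))

/-- Some pair `(T, U)` compatible with `(j, q)` has `T - U` not compact. -/
def HasNoncompactPair {H Z : Type} [NormedAddCommGroup H] [NormedSpace ℝ H]
    [NormedAddCommGroup Z] [NormedSpace ℝ Z] (j : H →L[ℝ] Z) (q : Z →L[ℝ] H) : Prop :=
  ∃ T U : H →L[ℝ] H, IsCompatible j q T U ∧ ¬ IsCompactOperator (T - U)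

/-- For every isomorphism `β` of `H`, some pair `(T, U)` compatible with `(j, q)` has
`T - β⁻¹ U β` not compact. -/
def HasNoncompactPairUpToIso {H Z : Type} [NormedAddCommGroup H] [NormedSpace ℝ H]
    [NormedAddCommGroup Z] [NormedSpace ℝ Z] (j : H →L[ℝ] Z) (q : Z →L[ℝ] H) : Prop :=
  ∀ β : H ≃L[ℝ] H, ∃ T U : H →L[ℝ] H, IsCompatible j q T U ∧
    ¬ IsCompactOperator (T - (β.symm : H →L[ℝ] H) ∘L U ∘L (β : H →L[ℝ] H))

/-- There is an exact sequence `0 → ℓ₂ → Z → ℓ₂ → 0` with maps `j` and `q` such that some pair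
`(T, U)` compatible with it has `T - U` not compact and, moreover, for every isomorphism `β` of
`ℓ₂` some pair `(T, U)` compatible with it has `T - β⁻¹ U β` not compact. -/
def HasBadSequence (Z : Type) [NormedAddCommGroup Z] [NormedSpace ℝ Z] : Prop :=
  ∃ (j : L2 →L[ℝ] Z) (q : Z →L[ℝ] L2),
    IsExactSeq j q ∧ HasNoncompactPair j q ∧ HasNoncompactPairUpToIso j q

end Pool.Agent.Lib.MP_23ded2_an
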