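import Pool.Agent.Lib.MP_23ded2_an.Defs

/-!
# Compatible operator pairs on the Kalton-Peck space: proofs
-/

open scoped ENNReal NNReal InnerProductSpace
open Filter Topology

set_option autoImplicit false

namespace Pool.Agent.Lib.MP_23ded2_an

/-! ### The embedding of `c₀₀` in `ℓ₂` -/

noncomputable def toL2 : C00 →ₗ[ℝ] L2 where
  toFun x := ⟨fun n => x n, by
    refine memℓp_gen ?_
    refine summable_of_ne_finset_zero (s := x.support) ?_
    intro n hn
    have : x n = 0 := by simpa using hn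
    simp [this]⟩
  map_add' x y := by
    ext n; rfl
  map_smul' c x := by
    ext n; rfl

lemma toL2_apply (x : C00) (n : ℕ) : (toL2 x : ℕ → ℝ) n = x n := rfl

lemma inner_toL2 (x y : C00) (F : Finset ℕ) (hF : x.support ⊆ F) :
    ⟪toL2 x, toL2 y⟫_ℝ = ∑ n ∈ F, x n * y n := by
  rw [lp.inner_eq_tsum, tsum_eq_sum (s := F)]
  · refine Finset.sum_congr rfl ?_
    intro n _
    simp [toL2_apply, mul_comm]
  · intro n hn
    have : x n = 0 := by
      by_contra h
      exact hn (hF (by simpa using h))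
    simp [toL2_apply, this]

lemma nrm_sq_eq (x : C00) (F : Finset ℕ) (hF : x.support ⊆ F) :
    (nrm x) ^ 2 = ∑ n ∈ F, (x n) ^ 2 := by
  rw [nrm, Real.sq_sqrt (Finset.sum_nonneg fun _ _ => sq_nonneg _)]
  refine Finset.sum_subset hF ?_
  intro n _ hn
  have : x n = 0 := by simpa using hn
  simp [this]

lemma nrm_nonneg (x : C00) : 0 ≤ nrm x := Real.sqrt_nonneg _

lemma norm_toL2 (x : C00) : ‖toL2 x‖ = nrm x := by
  have h1 : ‖toL2 x‖ ^ 2 = (nrm x) ^ 2 := by
    rw [← real_inner_self_eq_norm_sq, inner_toL2 x x x.support subset_rfl,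
      nrm_sq_eq x x.support subset_rfl]
    refine Finset.sum_congr rfl ?_
    intro n _; ring
  exact (pow_left_inj₀ (norm_nonneg _) (nrm_nonneg _) two_ne_zero).1 h1

lemma nrm_zero : nrm 0 = 0 := by simp [nrm]

lemma nrm_add_le (x y : C00) : nrm (x + y) ≤ nrm x + nrm y := by
  rw [← norm_toL2, ← norm_toL2, ← norm_toL2, map_add]; exact norm_add_le _ _

lemma nrm_sub_le (x y : C00) : nrm (x - y) ≤ nrm x + nrm y := by
  rw [← norm_toL2, ← norm_toL2, ← norm_toL2, map_sub]; exact norm_sub_le _ _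

lemma nrm_smul (c : ℝ) (x : C00) : nrm (c • x) = |c| * nrm x := by
  rw [← norm_toL2, ← norm_toL2, map_smul, norm_smul, Real.norm_eq_abs]

lemma nrm_neg (x : C00) : nrm (-x) = nrm x := by
  rw [← norm_toL2, ← norm_toL2, map_neg, norm_neg]

lemma abs_le_nrm (x : C00) (n : ℕ) : |x n| ≤ nrm x := by
  refine Real.le_sqrt_of_sq_le ?_
  rw [sq_abs]
  by_cases hn : n ∈ x.support
  · exact Finset.single_le_sum (f := fun n => (x n) ^ 2) (fun _ _ => sq_nonneg _) hn
  · have : x n = 0 := by simpa using hn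
    simp only [this, ne_eq, OfNat.ofNat_ne_zero, not_false_eq_true, zero_pow]
    exact Finset.sum_nonneg fun _ _ => sq_nonneg _

lemma nrm_eq_zero {x : C00} (h : nrm x = 0) : x = 0 := by
  ext n
  have := abs_le_nrm x n
  rw [h] at this
  simpa using le_antisymm this (abs_nonneg _)

lemma nrm_pos {x : C00} (h : x ≠ 0) : 0 < nrm x :=
  lt_of_le_of_ne (nrm_nonneg x) (fun h0 => h (nrm_eq_zero h0.symm))

/-- the general comparison of norms -/
lemma nrm_le_of_bound (x y : C00) (h : ℕ → ℝ) (A B H : ℝ)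
    (hH : ∀ F : Finset ℕ, ∑ n ∈ F, (h n) ^ 2 ≤ H)
    (hx : ∀ n, |x n| ≤ A * |y n| + B * h n) :
    (nrm x) ^ 2 ≤ 2 * A ^ 2 * (nrm y) ^ 2 + 2 * B ^ 2 * H := by
  classical
  rw [nrm_sq_eq x (x.support ∪ y.support) Finset.subset_union_left,
    nrm_sq_eq y (x.support ∪ y.support) Finset.subset_union_right]
  calc ∑ n ∈ x.support ∪ y.support, (x n) ^ 2
      ≤ ∑ n ∈ x.support ∪ y.support, (2 * A ^ 2 * (y n) ^ 2 + 2 * B ^ 2 * (h n) ^ 2) := by
        refine Finset.sum_le_sum ?_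
        intro n _
        have h1 := hx n
        have h2 : (x n) ^ 2 ≤ (A * |y n| + B * h n) ^ 2 := by
          rw [← sq_abs (x n)]
          exact pow_le_pow_left₀ (abs_nonneg _) h1 2
        have h3 : (A * |y n| + B * h n) ^ 2 ≤ 2 * (A * |y n|) ^ 2 + 2 * (B * h n) ^ 2 := by
          nlinarith [sq_nonneg (A * |y n| - B * h n)]
        have h4 : (A * |y n|) ^ 2 = A ^ 2 * (y n) ^ 2 := by rw [mul_pow, sq_abs]
        have h5 : (B * h n) ^ 2 = B ^ 2 * (h n) ^ 2 := by rw [mul_pow]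
        linarith
    _ = 2 * A ^ 2 * ∑ n ∈ x.support ∪ y.support, (y n) ^ 2
        + 2 * B ^ 2 * ∑ n ∈ x.support ∪ y.support, (h n) ^ 2 := by
        rw [Finset.sum_add_distrib, Finset.mul_sum, Finset.mul_sum]
    _ ≤ _ := by
        have := hH (x.support ∪ y.support)
        have h6 : 0 ≤ 2 * B ^ 2 := by positivity
        nlinarith

lemma nrm_mono {x y : C00} (h : ∀ n, |x n| ≤ |y n|) : nrm x ≤ nrm y := by
  classical
  have : (nrm x) ^ 2 ≤ (nrm y) ^ 2 := by
    rw [nrm_sq_eq x (x.support ∪ y.support) Finset.subset_union_left,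
      nrm_sq_eq y (x.support ∪ y.support) Finset.subset_union_right]
    refine Finset.sum_le_sum ?_
    intro n _
    exact sq_le_sq.2 (h n)
  exact le_of_sq_le_sq this (nrm_nonneg _)

lemma denseRange_toL2 : DenseRange toL2 := by
  intro f
  have h := lp.hasSum_single (E := fun _ : ℕ => ℝ) (p := 2) (by norm_num) f
  refine mem_closure_of_tendsto h (Eventually.of_forall ?_)
  intro F
  refine ⟨∑ i ∈ F, Finsupp.single i (f i), ?_⟩
  rw [map_sum]
  refine Finset.sum_congr rfl ?_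
  intro i _
  ext n
  rw [toL2_apply, lp.single_apply]
  by_cases hn : n = i
  · subst hn; simp
  · rw [Finsupp.single_apply, if_neg (fun h => hn h.symm)]
    simp [hn]

/-- basis vectors -/
noncomputable def ee (n : ℕ) : C00 := Finsupp.single n 1

lemma toL2_orthonormal : Orthonormal ℝ (fun n => toL2 (ee n)) := by
  rw [orthonormal_iff_ite]
  intro i j
  rw [inner_toL2 (ee i) (ee j) {i} Finsupp.support_single_subset]
  simp [ee, Finsupp.single_apply, eq_comm]

/-! ### The Kalton-Peck map -/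

lemma KP_apply (x : C00) (n : ℕ) : KP x n = x n * Real.log (|x n| / nrm x) := by
  simp [KP]

lemma KP_zero : KP 0 = 0 := by ext n; simp [KP_apply]

lemma KP_support (x : C00) : (KP x).support ⊆ x.support := by
  intro n hn
  simp only [Finsupp.mem_support_iff] at hn ⊢
  intro h
  apply hn
  rw [KP_apply, h, zero_mul]

/-- `t |log t| ≤ t L + e^{-L}` for `0 ≤ t ≤ 1` -/
lemma mul_log_bound {t : ℝ} (ht0 : 0 ≤ t) (ht1 : t ≤ 1) (L : ℝ) :
    t * |Real.log t| ≤ t * L + Real.exp (-L) := by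
  rcases eq_or_lt_of_le ht0 with h | h
  · rw [← h]; simp [Real.exp_nonneg]
  · have h1 : Real.log t ≤ 0 := Real.log_nonpos ht0 ht1
    rw [abs_of_nonpos h1]
    have h2 : Real.log (Real.exp (-L) / t) ≤ Real.exp (-L) / t - 1 :=
      Real.log_le_sub_one_of_pos (by positivity)
    rw [Real.log_div (Real.exp_pos _).ne' h.ne', Real.log_exp] at h2
    have h3 : t * (-L - Real.log t) ≤ t * (Real.exp (-L) / t - 1) :=
      mul_le_mul_of_nonneg_left h2 ht0
    have h4 : t * (Real.exp (-L) / t - 1) = Real.exp (-L) - t := by field_simp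
    nlinarith

lemma abs_KP_le (x : C00) (n : ℕ) (L : ℝ) :
    |KP x n| ≤ |x n| * L + nrm x * Real.exp (-L) := by
  by_cases hx : x = 0
  · subst hx; simp [KP_apply, nrm_zero]
  have hp := nrm_pos hx
  have h1 := mul_log_bound (t := |x n| / nrm x) (by positivity)
    (by rw [div_le_one hp]; exact abs_le_nrm x n) L
  rw [KP_apply, abs_mul]
  have h2 : nrm x * (|x n| / nrm x * |Real.log (|x n| / nrm x)|)
      ≤ nrm x * (|x n| / nrm x * L + Real.exp (-L)) := mul_le_mul_of_nonneg_left h1 hp.le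
  have h3 : nrm x * (|x n| / nrm x * |Real.log (|x n| / nrm x)|)
      = |x n| * |Real.log (|x n| / nrm x)| := by field_simp
  have h4 : nrm x * (|x n| / nrm x * L + Real.exp (-L))
      = |x n| * L + nrm x * Real.exp (-L) := by field_simp
  linarith

lemma abs_KP_le_nrm (x : C00) (n : ℕ) : |KP x n| ≤ nrm x := by
  have := abs_KP_le x n 0
  simpa using this

lemma qn_nonneg (p : C00 × C00) : 0 ≤ qn p := add_nonneg (nrm_nonneg _) (nrm_nonneg _)

lemma abs_fst_le_qn (p : C00 × C00) (n : ℕ) : |p.1 n| ≤ qn p := by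
  have h1 := abs_le_nrm (p.1 - KP p.2) n
  have h2 := abs_KP_le_nrm p.2 n
  rw [Finsupp.sub_apply] at h1
  have h3 : |p.1 n| ≤ |p.1 n - KP p.2 n| + |KP p.2 n| := by
    have := abs_add_le (p.1 n - KP p.2 n) (KP p.2 n)
    simpa using this
  rw [qn]; linarith

/-- `log` comparisons for the bilinear estimate -/
lemma ab_log_bound {a b : ℝ} (ha : 0 ≤ a) (hb : 0 ≤ b) :
    a * b * |Real.log a - Real.log b| ≤ a ^ 2 + b ^ 2 := by
  rcases eq_or_lt_of_le ha with h | h
  · rw [← h]; simp; positivity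
  rcases eq_or_lt_of_le hb with h' | h'
  · rw [← h']; simp; positivity
  have key : ∀ {a b : ℝ}, 0 < a → 0 < b → a * b * (Real.log a - Real.log b) ≤ a ^ 2 + b ^ 2 := by
    intro a b h h'
    have h1 : Real.log (a / b) ≤ a / b - 1 := Real.log_le_sub_one_of_pos (by positivity)
    rw [Real.log_div h.ne' h'.ne'] at h1
    have h2 : a * b * (Real.log a - Real.log b) ≤ a * b * (a / b - 1) :=
      mul_le_mul_of_nonneg_left h1 (by positivity)
    have h3 : a * b * (a / b - 1) = a ^ 2 - a * b := by field_simp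
    nlinarith [mul_pos h h', sq_nonneg b]
  rcases abs_cases (Real.log a - Real.log b) with h1 | h1
  · rw [h1.1]; exact key h h'
  · rw [h1.1]
    have := key h' h
    nlinarith

/-! ### Existence of a Banach model of the Kalton-Peck space -/

lemma KP_sym_bound (x x' : C00) :
    |⟪toL2 (KP x), toL2 x'⟫_ℝ - ⟪toL2 x, toL2 (KP x')⟫_ℝ| ≤ 2 * (nrm x * nrm x') := by
  classical
  by_cases hx : x = 0
  · subst hx; simp [KP_zero, nrm_zero]
  by_cases hx' : x' = 0
  · subst hx'; simp [KP_zero, nrm_zero]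
  have hp := nrm_pos hx
  have hp' := nrm_pos hx'
  rw [inner_toL2 (KP x) x' x.support (KP_support x), inner_toL2 x (KP x') x.support subset_rfl,
    ← Finset.sum_sub_distrib]
  have h1 : ∀ n ∈ x.support, |KP x n * x' n - x n * KP x' n| ≤
      nrm x * nrm x' * ((|x n| / nrm x) ^ 2 + (|x' n| / nrm x') ^ 2) := by
    intro n _
    have h2 := ab_log_bound (a := |x n| / nrm x) (b := |x' n| / nrm x') (by positivity)
      (by positivity)
    rw [KP_apply, KP_apply]
    have h3 : x n * Real.log (|x n| / nrm x) * x' n - x n * (x' n * Real.log (|x' n| / nrm x'))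
        = x n * x' n * (Real.log (|x n| / nrm x) - Real.log (|x' n| / nrm x')) := by ring
    rw [h3, abs_mul, abs_mul]
    have h4 : |x n| * |x' n| * |Real.log (|x n| / nrm x) - Real.log (|x' n| / nrm x')|
        = nrm x * nrm x' * (|x n| / nrm x * (|x' n| / nrm x') *
          |Real.log (|x n| / nrm x) - Real.log (|x' n| / nrm x')|) := by
      field_simp
    rw [h4]
    exact mul_le_mul_of_nonneg_left h2 (by positivity)
  have h5 : ∑ n ∈ x.support, (|x n| / nrm x) ^ 2 = 1 := by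
    have : ∀ n ∈ x.support, (|x n| / nrm x) ^ 2 = (x n) ^ 2 / (nrm x) ^ 2 := by
      intro n _; rw [div_pow, sq_abs]
    rw [Finset.sum_congr rfl this, ← Finset.sum_div, ← nrm_sq_eq x x.support subset_rfl]
    exact div_self (by positivity)
  have h6 : ∑ n ∈ x.support, (|x' n| / nrm x') ^ 2 ≤ 1 := by
    have : ∀ n ∈ x.support, (|x' n| / nrm x') ^ 2 = (x' n) ^ 2 / (nrm x') ^ 2 := by
      intro n _; rw [div_pow, sq_abs]
    rw [Finset.sum_congr rfl this, ← Finset.sum_div]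
    rw [div_le_one (by positivity)]
    rw [nrm_sq_eq x' (x'.support ∪ x.support) Finset.subset_union_left]
    exact Finset.sum_le_sum_of_subset_of_nonneg Finset.subset_union_right
      (fun _ _ _ => sq_nonneg _)
  calc |∑ n ∈ x.support, (KP x n * x' n - x n * KP x' n)|
      ≤ ∑ n ∈ x.support, |KP x n * x' n - x n * KP x' n| := Finset.abs_sum_le_sum_abs _ _
    _ ≤ ∑ n ∈ x.support, nrm x * nrm x' * ((|x n| / nrm x) ^ 2 + (|x' n| / nrm x') ^ 2) :=
        Finset.sum_le_sum h1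
    _ = nrm x * nrm x' * (∑ n ∈ x.support, (|x n| / nrm x) ^ 2
          + ∑ n ∈ x.support, (|x' n| / nrm x') ^ 2) := by
        rw [← Finset.mul_sum, Finset.sum_add_distrib]
    _ ≤ nrm x * nrm x' * (1 + 1) := by
        refine mul_le_mul_of_nonneg_left ?_ (by positivity)
        linarith
    _ = _ := by ring

/-- the symplectic form -/
noncomputable def om (p p' : C00 × C00) : ℝ :=
  ⟪toL2 p.1, toL2 p'.2⟫_ℝ - ⟪toL2 p.2, toL2 p'.1⟫_ℝ

lemma om_eq (p p' : C00 × C00) : om p p' =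
    ⟪toL2 (p.1 - KP p.2), toL2 p'.2⟫_ℝ - ⟪toL2 p.2, toL2 (p'.1 - KP p'.2)⟫_ℝ +
    (⟪toL2 (KP p.2), toL2 p'.2⟫_ℝ - ⟪toL2 p.2, toL2 (KP p'.2)⟫_ℝ) := by
  rw [om, map_sub, map_sub, inner_sub_left, inner_sub_right]; ring

lemma abs_inner_toL2_le (x y : C00) : |⟪toL2 x, toL2 y⟫_ℝ| ≤ nrm x * nrm y := by
  rw [← norm_toL2, ← norm_toL2]; exact abs_real_inner_le_norm _ _

lemma om_bound (p p' : C00 × C00) : |om p p'| ≤ 2 * qn p * qn p' := by
  rw [om_eq]
  have h1 := abs_inner_toL2_le (p.1 - KP p.2) p'.2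
  have h2 := abs_inner_toL2_le p.2 (p'.1 - KP p'.2)
  have h3 := KP_sym_bound p.2 p'.2
  have a1 := nrm_nonneg (p.1 - KP p.2)
  have a2 := nrm_nonneg p.2
  have a3 := nrm_nonneg (p'.1 - KP p'.2)
  have a4 := nrm_nonneg p'.2
  rw [qn, qn]
  set A := nrm (p.1 - KP p.2)
  set B := nrm p.2
  set A' := nrm (p'.1 - KP p'.2)
  set B' := nrm p'.2
  have h4 : A * B' + B * A' + 2 * (B * B') ≤ 2 * (A + B) * (A' + B') := by
    nlinarith [mul_nonneg a1 a3, mul_nonneg a1 a4, mul_nonneg a2 a3]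
  refine le_trans (abs_add_le _ _) ?_
  refine le_trans (add_le_add (abs_sub _ _) le_rfl) ?_
  linarith

/-- index set: the unit ball of the quasi-norm -/
abbrev Idx : Type := {p' : C00 × C00 // qn p' ≤ 1}

abbrev LInf : Type := lp (fun _ : Idx => ℝ) ∞

noncomputable def Phi : (C00 × C00) →ₗ[ℝ] LInf where
  toFun p := ⟨fun p' => om p p'.1, by
    refine memℓp_infty ?_
    refine ⟨2 * qn p, ?_⟩
    rintro _ ⟨p', rfl⟩
    simp only [Real.norm_eq_abs]
    refine le_trans (om_bound p p'.1) ?_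
    have := p'.2
    have h2 := qn_nonneg p
    nlinarith⟩
  map_add' p q := by
    ext p'
    simp only [om, Prod.fst_add, Prod.snd_add, map_add, inner_add_left, lp.coeFn_add,
      Pi.add_apply]
    ring
  map_smul' c p := by
    ext p'
    simp only [om, Prod.smul_fst, Prod.smul_snd, map_smul, real_inner_smul_left, lp.coeFn_smul,
      Pi.smul_apply, smul_eq_mul, RingHom.id_apply]
    ring

lemma Phi_apply (p : C00 × C00) (p' : Idx) : (Phi p : Idx → ℝ) p' = om p p'.1 := rfl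

lemma norm_Phi_le (p : C00 × C00) : ‖Phi p‖ ≤ 2 * qn p := by
  refine lp.norm_le_of_forall_le (by have := qn_nonneg p; positivity) ?_
  intro p'
  rw [Phi_apply, Real.norm_eq_abs]
  refine le_trans (om_bound p p'.1) ?_
  have := p'.2
  have h2 := qn_nonneg p
  nlinarith

lemma om_le_norm_Phi (p p' : C00 × C00) (h : qn p' ≤ 1) : om p p' ≤ ‖Phi p‖ := by
  have h1 := lp.norm_apply_le_norm (by simp : (∞ : ℝ≥0∞) ≠ 0) (Phi p) ⟨p', h⟩
  rw [Phi_apply, Real.norm_eq_abs] at h1
  exact le_trans (le_abs_self _) h1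

lemma nrm_snd_le (p : C00 × C00) : nrm p.2 ≤ ‖Phi p‖ := by
  by_cases hx : p.2 = 0
  · rw [hx, nrm_zero]; exact norm_nonneg _
  have hp := nrm_pos hx
  have h1 : qn (-((nrm p.2)⁻¹ • p.2), 0) ≤ 1 := by
    rw [qn]
    simp only [KP_zero, sub_zero, nrm_zero, add_zero]
    rw [nrm_neg, nrm_smul, abs_of_pos (inv_pos.2 hp), inv_mul_cancel₀ hp.ne']
  have h2 := om_le_norm_Phi p _ h1
  have h3 : om p (-((nrm p.2)⁻¹ • p.2), 0) = nrm p.2 := by
    rw [om]
    simp only [map_zero, inner_zero_right, map_neg, map_smul, inner_neg_right,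
      real_inner_smul_right, zero_sub, neg_neg, real_inner_self_eq_norm_sq, norm_toL2]
    field_simp
  rw [h3] at h2
  exact h2

lemma nrm_fst_le (p : C00 × C00) : nrm (p.1 - KP p.2) ≤ 3 * ‖Phi p‖ := by
  by_cases hu : p.1 - KP p.2 = 0
  · rw [hu, nrm_zero]; positivity
  have hp := nrm_pos hu
  set u := p.1 - KP p.2 with hu'
  set v : C00 := (nrm u)⁻¹ • u with hv
  have hnv : nrm v = 1 := by
    rw [hv, nrm_smul, abs_of_pos (inv_pos.2 hp), inv_mul_cancel₀ hp.ne']
  have h1 : qn (KP v, v) ≤ 1 := by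
    rw [qn]
    simp only [sub_self, nrm_zero, zero_add]
    rw [hnv]
  have h2 := om_le_norm_Phi p _ h1
  have h3 : om p (KP v, v) = ⟪toL2 u, toL2 v⟫_ℝ +
      (⟪toL2 (KP p.2), toL2 v⟫_ℝ - ⟪toL2 p.2, toL2 (KP v)⟫_ℝ) := by
    rw [om_eq]
    simp only [sub_self, map_zero, inner_zero_right, sub_zero, hu']
  have h4 : ⟪toL2 u, toL2 v⟫_ℝ = nrm u := by
    rw [hv, map_smul, real_inner_smul_right, real_inner_self_eq_norm_sq, norm_toL2]
    field_simp
  have h5 := KP_sym_bound p.2 v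
  rw [hnv] at h5
  have h6 := nrm_snd_le p
  have h7 := neg_le_of_abs_le h5
  rw [h3, h4] at h2
  linarith

/-- the Banach space `Z₂` (up to isomorphism) -/
abbrev ZZ : Type := (LinearMap.range Phi).topologicalClosure

noncomputable def iotaZ : (C00 × C00) →ₗ[ℝ] ZZ :=
  Phi.codRestrict _ (fun p => Submodule.le_topologicalClosure _ (LinearMap.mem_range_self Phi p))

lemma iotaZ_coe (p : C00 × C00) : ((iotaZ p : ZZ) : LInf) = Phi p := rfl

theorem isKaltonPeck_ZZ : IsKaltonPeck ZZ iotaZ where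
  complete := inferInstance
  dense := by
    intro z
    rw [closure_subtype]
    have h : (Subtype.val '' Set.range iotaZ) = (LinearMap.range Phi : Set LInf) := by
      ext w
      constructor
      · rintro ⟨_, ⟨p, rfl⟩, rfl⟩
        exact ⟨p, rfl⟩
      · rintro ⟨p, rfl⟩
        exact ⟨iotaZ p, ⟨p, rfl⟩, rfl⟩
    rw [h]
    exact z.2
  lower := by
    refine ⟨1 / 4, by norm_num, ?_⟩
    intro p
    have h1 := nrm_snd_le p
    have h2 := nrm_fst_le p
    have h3 : ‖iotaZ p‖ = ‖Phi p‖ := rfl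
    rw [h3, qn]
    linarith
  upper := ⟨2, fun p => norm_Phi_le p⟩

/-! ### Multiplication by a sequence -/

noncomputable def mulSeq (w : ℕ → ℝ) : C00 →ₗ[ℝ] C00 where
  toFun x := Finsupp.onFinset x.support (fun n => w n * x n) (by
    intro n hn
    simp only [ne_eq, mul_eq_zero, not_or] at hn
    exact Finsupp.mem_support_iff.2 hn.2)
  map_add' x y := by
    ext n; simp [mul_add]
  map_smul' c x := by
    ext n; simp; ring

lemma mulSeq_apply (w : ℕ → ℝ) (x : C00) (n : ℕ) : mulSeq w x n = w n * x n := rfl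

lemma mulSeq_support (w : ℕ → ℝ) (x : C00) : (mulSeq w x).support ⊆ x.support := by
  intro n hn
  simp only [Finsupp.mem_support_iff] at hn ⊢
  intro h
  apply hn
  rw [mulSeq_apply, h, mul_zero]

/-! ### The exact sequence attached to a sequence `s` -/

/-- hypotheses on the perturbation sequence -/
structure Good (s : ℕ → ℝ) : Prop where
  nonneg : ∀ n, 0 ≤ s n
  le_one : ∀ n, s n ≤ 1
  half : ∀ x : C00, nrm (mulSeq s (KP x)) ≤ 1 / 2 * nrm x
  bdd : ∃ C : ℝ, ∀ y : C00, nrm (KP (mulSeq s y)) ≤ C * nrm y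

lemma nrm_mulSeq_le {s : ℕ → ℝ} (hs : Good s) (x : C00) : nrm (mulSeq s x) ≤ nrm x := by
  refine nrm_mono ?_
  intro n
  rw [mulSeq_apply, abs_mul, abs_of_nonneg (hs.nonneg n)]
  exact mul_le_of_le_one_left (abs_nonneg _) (hs.le_one n)

noncomputable def j0 (s : ℕ → ℝ) : C00 →ₗ[ℝ] C00 × C00 := LinearMap.prod LinearMap.id (mulSeq s)

lemma j0_apply (s : ℕ → ℝ) (y : C00) : j0 s y = (y, mulSeq s y) := rfl

noncomputable def q0 (s : ℕ → ℝ) : C00 × C00 →ₗ[ℝ] C00 :=
  LinearMap.snd ℝ C00 C00 - (mulSeq s) ∘ₗ LinearMap.fst ℝ C00 C00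

lemma q0_apply (s : ℕ → ℝ) (p : C00 × C00) : q0 s p = p.2 - mulSeq s p.1 := rfl

lemma qn_j0_lower {s : ℕ → ℝ} (hs : Good s) (y : C00) : nrm y ≤ qn (j0 s y) := by
  rw [j0_apply, qn]
  have h1 : nrm y ≤ nrm (y - KP (mulSeq s y)) := by
    refine nrm_mono ?_
    intro n
    rw [Finsupp.sub_apply, KP_apply, mulSeq_apply]
    set L := Real.log (|s n * y n| / nrm (mulSeq s y)) with hL
    have hLn : L ≤ 0 := by
      rw [hL]
      refine Real.log_nonpos (by have := nrm_nonneg (mulSeq s y); positivity) ?_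
      have := abs_le_nrm (mulSeq s y) n
      rw [mulSeq_apply] at this
      exact div_le_one_of_le₀ this (nrm_nonneg _)
    have h2 : y n - s n * y n * L = (1 + s n * (-L)) * y n := by ring
    rw [h2, abs_mul]
    have h3 : 1 ≤ |1 + s n * (-L)| := by
      have h4 : 0 ≤ s n * (-L) := mul_nonneg (hs.nonneg n) (by linarith)
      rw [abs_of_nonneg (by linarith)]
      linarith
    exact le_mul_of_one_le_left (abs_nonneg _) h3
  have := nrm_nonneg (mulSeq s y)
  simp only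
  linarith

lemma qn_j0_upper {s : ℕ → ℝ} (hs : Good s) : ∃ C : ℝ, 0 ≤ C ∧ ∀ y : C00, qn (j0 s y) ≤ C * nrm y := by
  obtain ⟨C, hC⟩ := hs.bdd
  refine ⟨|C| + 2, by positivity, ?_⟩
  intro y
  rw [j0_apply, qn]
  have h1 := nrm_sub_le y (KP (mulSeq s y))
  have h2 := hC y
  have h3 := nrm_mulSeq_le hs y
  have h4 : C * nrm y ≤ |C| * nrm y := mul_le_mul_of_nonneg_right (le_abs_self C) (nrm_nonneg _)
  simp only
  linarith

lemma nrm_q0_le {s : ℕ → ℝ} (hs : Good s) (p : C00 × C00) : nrm (q0 s p) ≤ 2 * qn p := by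
  rw [q0_apply]
  have h1 : p.2 - mulSeq s p.1 = p.2 - mulSeq s (p.1 - KP p.2) - mulSeq s (KP p.2) := by
    rw [map_sub]; abel
  rw [h1]
  have h2 := nrm_sub_le (p.2 - mulSeq s (p.1 - KP p.2)) (mulSeq s (KP p.2))
  have h3 := nrm_sub_le p.2 (mulSeq s (p.1 - KP p.2))
  have h4 := nrm_mulSeq_le hs (p.1 - KP p.2)
  have h5 := hs.half p.2
  have h6 := nrm_nonneg (p.1 - KP p.2)
  have h7 := nrm_nonneg p.2
  rw [qn]
  linarith

lemma KP_pair_qn (x : C00) : qn (KP x, x) = nrm x := by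
  rw [qn]; simp [nrm_zero]

section Seq

variable {Z : Type} [NormedAddCommGroup Z] [NormedSpace ℝ Z] {ι : (C00 × C00) →ₗ[ℝ] Z}

/-- linear maps on `c₀₀` are bounded on each finite-dimensional coordinate subspace -/
lemma bdd_on_finset {W : Type} [NormedAddCommGroup W] [NormedSpace ℝ W] (ψ : C00 →ₗ[ℝ] W)
    (F : Finset ℕ) : ∃ K : ℝ, 0 ≤ K ∧ ∀ r : C00, r.support ⊆ F → ‖ψ r‖ ≤ K * nrm r := by
  refine ⟨∑ n ∈ F, ‖ψ (ee n)‖, Finset.sum_nonneg fun _ _ => norm_nonneg _, ?_⟩
  intro r hr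
  have h1 : r = ∑ n ∈ F, r n • ee n := by
    ext k
    rw [Finsupp.finsetSum_apply]
    simp only [Finsupp.smul_apply, ee, Finsupp.single_apply, smul_eq_mul]
    by_cases hk : k ∈ F
    · rw [Finset.sum_eq_single k]
      · simp
      · intro b _ hb; simp [hb]
      · intro h; exact absurd hk h
    · rw [Finset.sum_eq_zero]
      · by_contra h
        exact hk (hr (by simpa using h))
      · intro b hb
        have : b ≠ k := fun h => hk (h ▸ hb)
        simp [this]
  have h2 : ψ r = ∑ n ∈ F, r n • ψ (ee n) := by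
    conv_lhs => rw [h1]
    rw [map_sum]
    exact Finset.sum_congr rfl fun n _ => map_smul _ _ _
  rw [h2, Finset.sum_mul]
  refine le_trans (norm_sum_le _ _) (Finset.sum_le_sum ?_)
  intro n _
  rw [norm_smul, Real.norm_eq_abs, mul_comm]
  exact mul_le_mul_of_nonneg_left (abs_le_nrm r n) (norm_nonneg _)

/-- The key estimate: absorbing `s KP` -/
lemma absorb {W : Type} [NormedAddCommGroup W] [NormedSpace ℝ W] (ψ : C00 →ₗ[ℝ] W)
    {s : ℕ → ℝ} (hs : Good s) {C : ℝ} (h : ∀ r : C00, ‖ψ r‖ ≤ C * nrm r + ‖ψ (mulSeq s (KP r))‖)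
    (r : C00) : ‖ψ r‖ ≤ 2 * C * nrm r := by
  obtain ⟨K, hK0, hK⟩ := bdd_on_finset ψ r.support
  have h1 : ∀ N : ℕ, ∀ r' : C00, r'.support ⊆ r.support →
      ‖ψ r'‖ ≤ (2 * C + (1 / 2) ^ N * (K + 2 * |C|)) * nrm r' := by
    intro N
    induction N with
    | zero =>
      intro r' hr'
      refine le_trans (hK r' hr') (mul_le_mul_of_nonneg_right ?_ (nrm_nonneg _))
      have := neg_abs_le C
      simp only [pow_zero, one_mul]
      linarith
    | succ N ih =>
      intro r' hr'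
      have h2 := ih (mulSeq s (KP r')) ((mulSeq_support _ _).trans ((KP_support _).trans hr'))
      have h3 := hs.half r'
      have h4 : 0 ≤ 2 * C + (1 / 2) ^ N * (K + 2 * |C|) ∨ nrm (mulSeq s (KP r')) = 0 := by
        by_contra hcon
        push Not at hcon
        have h5 : 0 < nrm (mulSeq s (KP r')) := lt_of_le_of_ne (nrm_nonneg _) (Ne.symm hcon.2)
        have h6 := mul_neg_of_neg_of_pos hcon.1 h5
        have h7 := norm_nonneg (ψ (mulSeq s (KP r')))
        linarith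
      have h5 : (2 * C + (1 / 2) ^ N * (K + 2 * |C|)) * nrm (mulSeq s (KP r')) ≤
          |2 * C + (1 / 2) ^ N * (K + 2 * |C|)| * (1 / 2 * nrm r') := by
        refine mul_le_mul (le_abs_self _) h3 (nrm_nonneg _) (abs_nonneg _)
      rcases h4 with h4 | h4
      · rw [abs_of_nonneg h4] at h5
        have h6 := h r'
        have h7 : C * nrm r' + (2 * C + (1 / 2) ^ N * (K + 2 * |C|)) * (1 / 2 * nrm r')
            = (2 * C + (1 / 2) ^ (N + 1) * (K + 2 * |C|)) * nrm r' := by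
          rw [pow_succ]; ring
        linarith
      · rw [h4, mul_zero] at h2
        have h6 := h r'
        have h8 : ‖ψ r'‖ ≤ C * nrm r' := by linarith
        have h9 : ‖ψ r'‖ ≤ (2 * C) * nrm r' := by
          have := norm_nonneg (ψ r')
          nlinarith
        refine le_trans h9 (mul_le_mul_of_nonneg_right ?_ (nrm_nonneg _))
        have : 0 ≤ (1 / 2 : ℝ) ^ (N + 1) * (K + 2 * |C|) := by positivity
        linarith
  have h2 : Tendsto (fun N : ℕ => (2 * C + (1 / 2 : ℝ) ^ N * (K + 2 * |C|)) * nrm r) atTop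
      (𝓝 ((2 * C + 0 * (K + 2 * |C|)) * nrm r)) := by
    refine Tendsto.mul_const _ (Tendsto.const_add _ (Tendsto.mul_const _ ?_))
    exact tendsto_pow_atTop_nhds_zero_of_lt_one (by norm_num) (by norm_num)
  have h3 := ge_of_tendsto' h2 (fun N => h1 N r subset_rfl)
  simpa using h3

theorem exists_jq (h : IsKaltonPeck Z ι) {s : ℕ → ℝ} (hs : Good s) :
    ∃ (j : L2 →L[ℝ] Z) (q : Z →L[ℝ] L2), IsExactSeq j q ∧
      (∀ y : C00, j (toL2 y) = ι (j0 s y)) ∧ (∀ p : C00 × C00, q (ι p) = toL2 (q0 s p)) := by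
  have := h.complete
  obtain ⟨c, hc, hlow⟩ := h.lower
  obtain ⟨C, hup⟩ := h.upper
  obtain ⟨Cj, hCj0, hCj⟩ := qn_j0_upper hs
  have hup' : ∀ p, ‖ι p‖ ≤ |C| * qn p := fun p =>
    le_trans (hup p) (mul_le_mul_of_nonneg_right (le_abs_self C) (qn_nonneg p))
  -- the maps
  have hjn : ∃ D : ℝ, ∀ y : C00, ‖(ι ∘ₗ j0 s) y‖ ≤ D * ‖toL2 y‖ := by
    refine ⟨|C| * Cj, ?_⟩
    intro y
    rw [norm_toL2, LinearMap.comp_apply]
    refine le_trans (hup' _) ?_
    rw [mul_assoc]
    exact mul_le_mul_of_nonneg_left (hCj y) (abs_nonneg _)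
  have hqn : ∃ D : ℝ, ∀ p : C00 × C00, ‖(toL2 ∘ₗ q0 s) p‖ ≤ D * ‖ι p‖ := by
    refine ⟨2 / c, ?_⟩
    intro p
    rw [LinearMap.comp_apply, norm_toL2]
    refine le_trans (nrm_q0_le hs p) ?_
    have := hlow p
    rw [div_mul_eq_mul_div, le_div_iff₀ hc]
    linarith
  set j : L2 →L[ℝ] Z := (ι ∘ₗ j0 s).extendOfNorm toL2 with hj
  set q : Z →L[ℝ] L2 := (toL2 ∘ₗ q0 s).extendOfNorm ι with hq
  have hj1 : ∀ y : C00, j (toL2 y) = ι (j0 s y) := fun y =>
    LinearMap.extendOfNorm_eq denseRange_toL2 hjn y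
  have hq1 : ∀ p : C00 × C00, q (ι p) = toL2 (q0 s p) := fun p =>
    LinearMap.extendOfNorm_eq h.dense hqn p
  -- embedding
  have hemb : ∀ y : L2, c * ‖y‖ ≤ ‖j y‖ := by
    intro y
    refine denseRange_toL2.induction_on (p := fun y => c * ‖y‖ ≤ ‖j y‖) y ?_ ?_
    · exact isClosed_le (by fun_prop) (by fun_prop)
    · intro y
      rw [hj1, norm_toL2]
      refine le_trans ?_ (hlow _)
      exact mul_le_mul_of_nonneg_left (qn_j0_lower hs y) hc.le
  have hqj : ∀ y : L2, q (j y) = 0 := by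
    intro y
    refine denseRange_toL2.induction_on (p := fun y => q (j y) = 0) y ?_ ?_
    · exact isClosed_eq (by fun_prop) continuous_const
    · intro y
      rw [hj1, hq1, q0_apply, j0_apply]
      simp
  -- the quotient
  have hS : IsClosed ((LinearMap.range (j : L2 →ₗ[ℝ] Z) : Submodule ℝ Z) : Set Z) := by
    have hanti : AntilipschitzWith (Real.toNNReal c⁻¹) j := by
      refine AddMonoidHomClass.antilipschitz_of_bound j ?_
      intro y
      rw [Real.coe_toNNReal _ (by positivity)]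
      have := hemb y
      rw [inv_mul_eq_div, le_div_iff₀ hc]
      linarith
    exact hanti.isClosed_range j.uniformContinuous
  set S : Submodule ℝ Z := LinearMap.range (j : L2 →ₗ[ℝ] Z) with hSdef
  have : IsClosed (S : Set Z) := hS
  set ψ : C00 →ₗ[ℝ] (Z ⧸ S) := S.mkQ ∘ₗ ι ∘ₗ LinearMap.inr ℝ C00 C00 with hψ
  have hψ1 : ∀ r : C00, ψ r = S.mkQ (ι (0, r)) := fun r => rfl
  have hψb : ∀ r : C00, ‖ψ r‖ ≤ |C| * nrm r + ‖ψ (mulSeq s (KP r))‖ := by
    intro r
    have h1 : ι (0, r) = ι (KP r, r) + ι (0, mulSeq s (KP r)) + j (-(toL2 (KP r))) := by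
      rw [map_neg, hj1, ← map_neg, ← map_add, ← map_add]
      congr 1
      rw [j0_apply]
      ext1
      · simp
      · simp
    have h2 : ψ r = S.mkQ (ι (KP r, r)) + ψ (mulSeq s (KP r)) := by
      rw [hψ1, h1, map_add, map_add, hψ1]
      have : S.mkQ (j (-(toL2 (KP r)))) = 0 := by
        rw [Submodule.mkQ_apply, Submodule.Quotient.mk_eq_zero]
        exact ⟨_, rfl⟩
      rw [this, add_zero]
    rw [h2]
    refine le_trans (norm_add_le _ _) (add_le_add ?_ le_rfl)
    refine le_trans (Submodule.Quotient.norm_mk_le S _) ?_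
    refine le_trans (hup' _) ?_
    rw [KP_pair_qn]
  have hψn : ∃ D : ℝ, ∀ r : C00, ‖ψ r‖ ≤ D * ‖toL2 r‖ := by
    refine ⟨2 * |C|, ?_⟩
    intro r
    rw [norm_toL2]
    exact absorb ψ hs hψb r
  set Ψ : L2 →L[ℝ] (Z ⧸ S) := ψ.extendOfNorm toL2 with hΨ
  have hΨ1 : ∀ r : C00, Ψ (toL2 r) = ψ r := fun r =>
    LinearMap.extendOfNorm_eq denseRange_toL2 hψn r
  have hΨq : ∀ z : Z, Ψ (q z) = S.mkQL z := by
    intro z
    refine h.dense.induction_on (p := fun z => Ψ (q z) = S.mkQL z) z ?_ ?_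
    · exact isClosed_eq (by fun_prop) (by fun_prop)
    · intro p
      rw [hq1, hΨ1, hψ1, q0_apply, Submodule.mkQL_apply]
      rw [← sub_eq_zero, ← map_sub, Submodule.mkQ_apply, Submodule.Quotient.mk_eq_zero]
      refine ⟨-(toL2 p.1), ?_⟩
      change j (-(toL2 p.1)) = _
      rw [map_neg, hj1, ← map_neg, ← map_sub]
      congr 1
      rw [j0_apply]
      ext1
      · simp
      · simp
  have hker : S ≤ LinearMap.ker (q : Z →ₗ[ℝ] L2) := by
    rintro _ ⟨y, rfl⟩
    exact hqj y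
  have hlift : ∀ u : L2, S.liftQL q hker (Ψ u) = u := by
    intro u
    refine denseRange_toL2.induction_on (p := fun u => S.liftQL q hker (Ψ u) = u) u ?_ ?_
    · exact isClosed_eq (by fun_prop) (by fun_prop)
    · intro r
      rw [hΨ1, hψ1]
      rw [Submodule.liftQL_apply]
      change q (ι (0, r)) = toL2 r
      rw [hq1, q0_apply]
      simp
  refine ⟨j, q, ⟨⟨c, hc, hemb⟩, ?_, ?_⟩, hj1, hq1⟩
  · intro u
    obtain ⟨z, hz⟩ := S.mkQ_surjective (Ψ u)
    refine ⟨z, ?_⟩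
    have h1 := hΨq z
    rw [Submodule.mkQL_apply, hz] at h1
    have h2 := hlift (q z)
    rw [h1, hlift] at h2
    exact h2.symm
  · intro z
    constructor
    · intro hz
      have h1 := hΨq z
      rw [hz, map_zero, Submodule.mkQL_apply, Submodule.mkQ_apply] at h1
      exact (Submodule.Quotient.mk_eq_zero S).1 h1.symm
    · rintro ⟨y, rfl⟩
      exact hqj y

end Seq

/-! ### Restriction to a subset of the coordinates -/

noncomputable def res (α : ℕ → ℕ) (hα : Function.Injective α) : C00 →ₗ[ℝ] C00 :=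
  Finsupp.lcomapDomain α hα

lemma res_apply (α : ℕ → ℕ) (hα : Function.Injective α) (x : C00) (k : ℕ) :
    res α hα x k = x (α k) := rfl

lemma nrm_res_le (α : ℕ → ℕ) (hα : Function.Injective α) (x : C00) :
    nrm (res α hα x) ≤ nrm x := by
  classical
  have : (nrm (res α hα x)) ^ 2 ≤ (nrm x) ^ 2 := by
    rw [nrm_sq_eq _ _ subset_rfl,
      nrm_sq_eq x (x.support ∪ (res α hα x).support.image α) Finset.subset_union_left]
    calc ∑ n ∈ (res α hα x).support, (res α hα x n) ^ 2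
        = ∑ n ∈ (res α hα x).support.image α, (x n) ^ 2 := by
          rw [Finset.sum_image (fun _ _ _ _ h => hα h)]
          rfl
      _ ≤ _ := Finset.sum_le_sum_of_subset_of_nonneg Finset.subset_union_right
          (fun _ _ _ => sq_nonneg _)
  exact le_of_sq_le_sq this (nrm_nonneg _)

lemma qn_res_le (α : ℕ → ℕ) (hα : Function.Injective α) (p : C00 × C00) :
    qn (res α hα p.1, res α hα p.2) ≤ 2 * qn p := by
  obtain ⟨y, x⟩ := p
  rw [qn, qn]
  simp only
  have h0 := nrm_res_le α hα x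
  by_cases hx : res α hα x = 0
  · rw [hx, KP_zero, nrm_zero, sub_zero, add_zero]
    have h1 : nrm (res α hα y) ≤ nrm (y - KP x) := by
      have h2 : res α hα y = res α hα (y - KP x) := by
        ext k
        have : x (α k) = 0 := by
          have := DFunLike.congr_fun hx k
          simpa [res_apply] using this
        rw [res_apply, res_apply, Finsupp.sub_apply, KP_apply, this, zero_mul, sub_zero]
      rw [h2]
      exact nrm_res_le α hα _
    have := nrm_nonneg (y - KP x)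
    have := nrm_nonneg x
    linarith
  have hp := nrm_pos hx
  have hp' : 0 < nrm x := lt_of_lt_of_le hp h0
  have h1 : res α hα y - KP (res α hα x) = res α hα (y - KP x)
      - Real.log (nrm x / nrm (res α hα x)) • res α hα x := by
    ext k
    simp only [Finsupp.sub_apply, res_apply, KP_apply, Finsupp.smul_apply, smul_eq_mul]
    by_cases hk : x (α k) = 0
    · simp [hk]
    · rw [Real.log_div (abs_pos.2 hk).ne' hp.ne', Real.log_div (abs_pos.2 hk).ne' hp'.ne',
        Real.log_div hp'.ne' hp.ne']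
      ring
  rw [h1]
  have h2 := nrm_sub_le (res α hα (y - KP x)) (Real.log (nrm x / nrm (res α hα x)) • res α hα x)
  have h3 := nrm_res_le α hα (y - KP x)
  have h4 : nrm (Real.log (nrm x / nrm (res α hα x)) • res α hα x) ≤ nrm x := by
    rw [nrm_smul]
    have h5 : 0 ≤ Real.log (nrm x / nrm (res α hα x)) :=
      Real.log_nonneg (by rw [le_div_iff₀ hp]; linarith)
    rw [abs_of_nonneg h5]
    have h6 := Real.log_le_sub_one_of_pos (x := nrm x / nrm (res α hα x)) (by positivity)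
    have h7 : Real.log (nrm x / nrm (res α hα x)) * nrm (res α hα x) ≤
        (nrm x / nrm (res α hα x) - 1) * nrm (res α hα x) :=
      mul_le_mul_of_nonneg_right h6 hp.le
    have h8 : (nrm x / nrm (res α hα x) - 1) * nrm (res α hα x) = nrm x - nrm (res α hα x) := by
      field_simp
    linarith
  have := nrm_nonneg (y - KP x)
  linarith

/-! ### Spreading over blocks -/

/-- data of a family of disjoint blocks with signs -/
structure Blocks (S : ℕ → Finset ℕ) (ε : ℕ → ℝ) : Prop where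
  disj : ∀ j k, j ≠ k → Disjoint (S j) (S k)
  ne : ∀ k, (S k).Nonempty
  sign : ∀ n, |ε n| = 1

/-- normalised flat vector on the block `S k` -/
noncomputable def vv (S : ℕ → Finset ℕ) (ε : ℕ → ℝ) (k : ℕ) : C00 :=
  Finsupp.indicator (S k) (fun n _ => ε n / Real.sqrt (S k).card)

noncomputable def VV (S : ℕ → Finset ℕ) (ε : ℕ → ℝ) : C00 →ₗ[ℝ] C00 :=
  Finsupp.linearCombination ℝ (vv S ε)

/-- `½ log |S k|` -/
noncomputable def kap (S : ℕ → Finset ℕ) (k : ℕ) : ℝ := Real.log (S k).card / 2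

section VVsec

variable {S : ℕ → Finset ℕ} {ε : ℕ → ℝ}

lemma VV_ee (k : ℕ) : VV S ε (ee k) = vv S ε k := by
  rw [VV, ee, Finsupp.linearCombination_single, one_smul]

lemma VV_mem (hB : Blocks S ε) (X : C00) {n k : ℕ} (h : n ∈ S k) :
    VV S ε X n = X k * (ε n / Real.sqrt (S k).card) := by
  rw [VV, Finsupp.linearCombination_apply, Finsupp.sum, Finsupp.finsetSum_apply]
  rw [Finset.sum_eq_single k]
  · rw [Finsupp.smul_apply, vv, Finsupp.indicator_apply, dif_pos h, smul_eq_mul]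
  · intro b _ hb
    have : n ∉ S b := fun h' => (Finset.disjoint_left.1 (hB.disj b k hb) h') h
    rw [Finsupp.smul_apply, vv, Finsupp.indicator_apply, dif_neg this, smul_zero]
  · intro hk
    have : X k = 0 := by simpa using hk
    rw [this, zero_smul]; rfl

lemma VV_notMem (X : C00) {n : ℕ} (h : ∀ k, n ∉ S k) : VV S ε X n = 0 := by
  rw [VV, Finsupp.linearCombination_apply, Finsupp.sum, Finsupp.finsetSum_apply]
  refine Finset.sum_eq_zero ?_
  intro b _
  rw [Finsupp.smul_apply, vv, Finsupp.indicator_apply, dif_neg (h b), smul_zero]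

lemma VV_ext (hB : Blocks S ε) {x : C00} {X : C00}
    (h1 : ∀ k, ∀ n ∈ S k, x n = X k * (ε n / Real.sqrt (S k).card))
    (h2 : ∀ n, (∀ k, n ∉ S k) → x n = 0) : x = VV S ε X := by
  ext n
  by_cases h : ∃ k, n ∈ S k
  · obtain ⟨k, hk⟩ := h
    rw [VV_mem hB X hk, h1 k n hk]
  · push Not at h
    rw [VV_notMem X h, h2 n h]

lemma card_pos (hB : Blocks S ε) (k : ℕ) : (0 : ℝ) < (S k).card :=
  Nat.cast_pos.2 (Finset.card_pos.2 (hB.ne k))

lemma nrm_VV (hB : Blocks S ε) (X : C00) : nrm (VV S ε X) = nrm X := by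
  classical
  have h1 : (nrm (VV S ε X)) ^ 2 = (nrm X) ^ 2 := by
    rw [nrm_sq_eq (VV S ε X) (X.support.biUnion S), nrm_sq_eq X X.support subset_rfl,
      Finset.sum_biUnion]
    · refine Finset.sum_congr rfl ?_
      intro k _
      have h2 : ∀ n ∈ S k, (VV S ε X n) ^ 2 = (X k) ^ 2 / (S k).card := by
        intro n hn
        rw [VV_mem hB X hn, mul_pow, div_pow, Real.sq_sqrt (Nat.cast_nonneg _), ← sq_abs (ε n),
          hB.sign n]
        ring
      rw [Finset.sum_congr rfl h2, Finset.sum_const, nsmul_eq_mul]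
      have := card_pos hB k
      field_simp
    · intro j _ k _ hjk
      exact hB.disj j k hjk
    · intro n hn
      rw [Finsupp.mem_support_iff] at hn
      by_cases h : ∃ k, n ∈ S k
      · obtain ⟨k, hk⟩ := h
        rw [Finset.mem_biUnion]
        refine ⟨k, ?_, hk⟩
        rw [VV_mem hB X hk] at hn
        exact Finsupp.mem_support_iff.2 (left_ne_zero_of_mul hn)
      · push Not at h
        exact absurd (VV_notMem X h) hn
  exact (pow_left_inj₀ (nrm_nonneg _) (nrm_nonneg _) two_ne_zero).1 h1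

lemma KP_VV (hB : Blocks S ε) (X : C00) :
    KP (VV S ε X) = VV S ε (KP X - mulSeq (kap S) X) := by
  refine VV_ext hB ?_ ?_
  · intro k n hn
    rw [KP_apply, VV_mem hB X hn, nrm_VV hB, Finsupp.sub_apply, KP_apply, mulSeq_apply, kap]
    by_cases hX : X k = 0
    · simp [hX]
    have hX' : X ≠ 0 := fun h => hX (by rw [h]; rfl)
    have hp := nrm_pos hX'
    have hc := card_pos hB k
    have h1 : |X k * (ε n / Real.sqrt (S k).card)| = |X k| / Real.sqrt (S k).card := by
      rw [abs_mul, abs_div, hB.sign n, abs_of_nonneg (Real.sqrt_nonneg _)]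
      ring
    rw [h1, Real.log_div (by positivity) hp.ne', Real.log_div (abs_pos.2 hX).ne' (by positivity),
      Real.log_sqrt hc.le, Real.log_div (abs_pos.2 hX).ne' hp.ne']
    ring
  · intro n hn
    rw [KP_apply, VV_notMem X hn, zero_mul]

lemma mulSeq_VV (hB : Blocks S ε) {s σ : ℕ → ℝ} (hσ : ∀ k, ∀ n ∈ S k, s n = σ k) (X : C00) :
    mulSeq s (VV S ε X) = VV S ε (mulSeq σ X) := by
  refine VV_ext hB ?_ ?_
  · intro k n hn
    rw [mulSeq_apply, VV_mem hB X hn, mulSeq_apply, hσ k n hn]; ring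
  · intro n hn
    rw [mulSeq_apply, VV_notMem X hn, mul_zero]

/-- the block spreading operator on pairs -/
noncomputable def WW (S : ℕ → Finset ℕ) (ε : ℕ → ℝ) : C00 × C00 →ₗ[ℝ] C00 × C00 :=
  LinearMap.prod (VV S ε ∘ₗ (LinearMap.fst ℝ C00 C00 - mulSeq (kap S) ∘ₗ LinearMap.snd ℝ C00 C00))
    (VV S ε ∘ₗ LinearMap.snd ℝ C00 C00)

lemma WW_apply (p : C00 × C00) :
    WW S ε p = (VV S ε (p.1 - mulSeq (kap S) p.2), VV S ε p.2) := rfl

lemma qn_WW (hB : Blocks S ε) (p : C00 × C00) : qn (WW S ε p) = qn p := by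
  rw [WW_apply, qn, qn]
  simp only
  rw [KP_VV hB, ← map_sub, nrm_VV hB, nrm_VV hB]
  congr 2
  abel

end VVsec

/-! ### The unipotent operator -/

noncomputable def GG (lam : ℕ → ℝ) : C00 × C00 →ₗ[ℝ] C00 × C00 :=
  LinearMap.prod (LinearMap.fst ℝ C00 C00)
    (LinearMap.snd ℝ C00 C00 + mulSeq lam ∘ₗ LinearMap.fst ℝ C00 C00)

lemma GG_apply (lam : ℕ → ℝ) (p : C00 × C00) : GG lam p = (p.1, p.2 + mulSeq lam p.1) := rfl

lemma nrm_ee (n : ℕ) : nrm (ee n) = 1 := by
  rw [← norm_toL2]; exact toL2_orthonormal.1 n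

lemma KP_ee (n : ℕ) : KP (ee n) = 0 := by
  ext k
  rw [KP_apply, nrm_ee, ee, Finsupp.single_apply]
  by_cases h : n = k
  · simp [h]
  · simp [h]

section Compat

variable {Z : Type} [NormedAddCommGroup Z] [NormedSpace ℝ Z] {ι : (C00 × C00) →ₗ[ℝ] Z}

lemma GG_bound {C : ℝ} (hC0 : 0 ≤ C) (hup : ∀ p, ‖ι p‖ ≤ C * qn p) {lam : ℕ → ℝ}
    (hl0 : ∀ k, 0 ≤ lam k) (hl : Summable lam) (p : C00 × C00) :
    ‖ι (GG lam p)‖ ≤ (C + C * ∑' k, lam k) * qn p := by
  have h1 : ι (GG lam p) = ι p + ι (0, mulSeq lam p.1) := by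
    rw [← map_add]; congr 1; rw [GG_apply]; ext1 <;> simp
  have h2 : mulSeq lam p.1 = ∑ k ∈ p.1.support, (lam k * p.1 k) • ee k := by
    ext n
    rw [mulSeq_apply, Finsupp.finsetSum_apply]
    by_cases hn : n ∈ p.1.support
    · rw [Finset.sum_eq_single n]
      · simp [ee]
      · intro b _ hb; simp [ee, hb]
      · intro h; exact absurd hn h
    · rw [Finset.sum_eq_zero]
      · have : p.1 n = 0 := by simpa using hn
        rw [this, mul_zero]
      · intro b hb
        have : b ≠ n := fun h => hn (h ▸ hb)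
        simp [ee, this]
  have h3 : ι (0, mulSeq lam p.1) = ∑ k ∈ p.1.support, (lam k * p.1 k) • ι (0, ee k) := by
    have : ∀ z : C00, ι (0, z) = (ι ∘ₗ LinearMap.inr ℝ C00 C00) z := fun z => rfl
    rw [this, h2, map_sum]
    refine Finset.sum_congr rfl ?_
    intro k _
    rw [map_smul]; rfl
  have h4 : ∀ k, ‖ι (0, ee k)‖ ≤ C := by
    intro k
    refine le_trans (hup _) ?_
    rw [qn]
    simp only [KP_ee, sub_zero, nrm_zero, nrm_ee, zero_add, mul_one, le_refl]
  have h5 : ‖ι (0, mulSeq lam p.1)‖ ≤ C * (∑' k, lam k) * qn p := by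
    rw [h3]
    calc ‖∑ k ∈ p.1.support, (lam k * p.1 k) • ι (0, ee k)‖
        ≤ ∑ k ∈ p.1.support, ‖(lam k * p.1 k) • ι (0, ee k)‖ := norm_sum_le _ _
      _ ≤ ∑ k ∈ p.1.support, lam k * (C * qn p) := by
          refine Finset.sum_le_sum ?_
          intro k _
          rw [norm_smul, Real.norm_eq_abs, abs_mul, abs_of_nonneg (hl0 k), mul_assoc]
          refine mul_le_mul_of_nonneg_left ?_ (hl0 k)
          rw [mul_comm C]
          exact mul_le_mul (abs_fst_le_qn p k) (h4 k) (norm_nonneg _) (qn_nonneg p)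
      _ = (∑ k ∈ p.1.support, lam k) * (C * qn p) := by rw [Finset.sum_mul]
      _ ≤ (∑' k, lam k) * (C * qn p) := by
          refine mul_le_mul_of_nonneg_right (hl.sum_le_tsum _ (fun k _ => hl0 k)) ?_
          exact mul_nonneg hC0 (qn_nonneg p)
      _ = _ := by ring
  rw [h1]
  refine le_trans (norm_add_le _ _) ?_
  have := hup p
  linarith

/-- **The general compatible pair.** -/
theorem exists_compat (h : IsKaltonPeck Z ι) {s : ℕ → ℝ} {j : L2 →L[ℝ] Z} {q : Z →L[ℝ] L2}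
    (hj : ∀ y : C00, j (toL2 y) = ι (j0 s y)) (hq : ∀ p : C00 × C00, q (ι p) = toL2 (q0 s p))
    {S : ℕ → Finset ℕ} {ε : ℕ → ℝ} (hB : Blocks S ε) {α : ℕ → ℕ} (hα : Function.Injective α)
    (hsα : ∀ k, s (α k) = 0) {σ : ℕ → ℝ} (hσ : ∀ k, ∀ n ∈ S k, s n = σ k)
    (hσ0 : ∀ k, 0 ≤ σ k) (hσs : Summable σ) {t : ℝ} (ht : 0 < t)
    (htk : ∀ k, t * (1 + kap S k * σ k) = 1) :
    ∃ T U : L2 →L[ℝ] L2, IsCompatible j q T U ∧
      (∀ y : C00, T (toL2 y) = t • toL2 (VV S ε (res α hα y))) ∧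
      (∀ y : C00, U (toL2 y) = t⁻¹ • toL2 (VV S ε (res α hα y))) := by
  have := h.complete
  obtain ⟨c, hc, hlow⟩ := h.lower
  obtain ⟨C, hup⟩ := h.upper
  have hup' : ∀ p, ‖ι p‖ ≤ |C| * qn p := fun p =>
    le_trans (hup p) (mul_le_mul_of_nonneg_right (le_abs_self C) (qn_nonneg p))
  set lam : ℕ → ℝ := fun k => t * σ k with hlam
  have hl0 : ∀ k, 0 ≤ lam k := fun k => mul_nonneg ht.le (hσ0 k)
  have hls : Summable lam := hσs.mul_left t
  -- the algebraic maps
  set V : C00 →ₗ[ℝ] C00 := VV S ε ∘ₗ res α hα with hV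
  set ρ : C00 × C00 →ₗ[ℝ] C00 × C00 := LinearMap.prodMap (res α hα) (res α hα) with hρ
  set τ0 : C00 × C00 →ₗ[ℝ] C00 × C00 := WW S ε ∘ₗ GG lam ∘ₗ ρ with hτ0
  have hVn : ∀ y : C00, nrm (V y) ≤ nrm y := by
    intro y
    rw [hV, LinearMap.comp_apply, nrm_VV hB]
    exact nrm_res_le α hα y
  have hTn : ∀ a : ℝ, ∃ D : ℝ, ∀ y : C00, ‖(a • (toL2 ∘ₗ V)) y‖ ≤ D * ‖toL2 y‖ := by
    intro a
    refine ⟨|a|, ?_⟩
    intro y
    rw [LinearMap.smul_apply, norm_smul, Real.norm_eq_abs, LinearMap.comp_apply, norm_toL2,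
      norm_toL2]
    exact mul_le_mul_of_nonneg_left (hVn y) (abs_nonneg _)
  have hτn : ∃ D : ℝ, ∀ p : C00 × C00, ‖(ι ∘ₗ τ0) p‖ ≤ D * ‖ι p‖ := by
    refine ⟨|C| * ((|C| + |C| * ∑' k, lam k) * (2 / c)) / c, ?_⟩
    intro p
    rw [LinearMap.comp_apply, hτ0, LinearMap.comp_apply, LinearMap.comp_apply]
    have hΛ : 0 ≤ ∑' k, lam k := tsum_nonneg hl0
    have h1 : ‖ι (GG lam (ρ p))‖ ≤ (|C| + |C| * ∑' k, lam k) * qn (ρ p) :=
      GG_bound (abs_nonneg C) hup' hl0 hls (ρ p)
    have h2 : qn (ρ p) ≤ 2 * qn p := qn_res_le α hα p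
    have h3 : c * qn p ≤ ‖ι p‖ := hlow p
    have h4 : c * qn (GG lam (ρ p)) ≤ ‖ι (GG lam (ρ p))‖ := hlow _
    have h5 : ‖ι (WW S ε (GG lam (ρ p)))‖ ≤ |C| * qn (GG lam (ρ p)) := by
      refine le_trans (hup' _) ?_
      rw [qn_WW hB]
    have h6 : qn p ≤ ‖ι p‖ / c := by rw [le_div_iff₀ hc]; linarith
    have h7 : qn (GG lam (ρ p)) ≤ ‖ι (GG lam (ρ p))‖ / c := by rw [le_div_iff₀ hc]; linarith
    have hA : 0 ≤ |C| + |C| * ∑' k, lam k := by positivity
    have h8 : ‖ι (GG lam (ρ p))‖ ≤ (|C| + |C| * ∑' k, lam k) * (2 / c) * ‖ι p‖ := by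
      refine le_trans h1 ?_
      rw [mul_assoc]
      refine mul_le_mul_of_nonneg_left ?_ hA
      refine le_trans h2 ?_
      rw [div_mul_eq_mul_div, mul_div_assoc]
      linarith
    have h9 : qn (GG lam (ρ p)) ≤ (|C| + |C| * ∑' k, lam k) * (2 / c) * ‖ι p‖ / c :=
      le_trans h7 (div_le_div_of_nonneg_right h8 hc.le)
    refine le_trans h5 ?_
    refine le_trans (mul_le_mul_of_nonneg_left h9 (abs_nonneg C)) ?_
    apply le_of_eq
    ring
  set T : L2 →L[ℝ] L2 := (t • (toL2 ∘ₗ V)).extendOfNorm toL2 with hT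
  set U : L2 →L[ℝ] L2 := (t⁻¹ • (toL2 ∘ₗ V)).extendOfNorm toL2 with hU
  set τ : Z →L[ℝ] Z := (ι ∘ₗ τ0).extendOfNorm ι with hτ
  have hT1 : ∀ y : C00, T (toL2 y) = t • toL2 (VV S ε (res α hα y)) := fun y =>
    LinearMap.extendOfNorm_eq denseRange_toL2 (hTn t) y
  have hU1 : ∀ y : C00, U (toL2 y) = t⁻¹ • toL2 (VV S ε (res α hα y)) := fun y =>
    LinearMap.extendOfNorm_eq denseRange_toL2 (hTn t⁻¹) y
  have hτ1 : ∀ p : C00 × C00, τ (ι p) = ι (WW S ε (GG lam (ρ p))) := fun p =>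
    LinearMap.extendOfNorm_eq h.dense hτn p
  have hres : ∀ y : C00, res α hα (mulSeq s y) = 0 := by
    intro y; ext k
    rw [res_apply, mulSeq_apply, hsα k, zero_mul]; rfl
  refine ⟨T, U, ⟨τ, ?_, ?_⟩, hT1, hU1⟩
  · intro y
    refine denseRange_toL2.induction_on (p := fun y => τ (j y) = j (T y)) y ?_ ?_
    · exact isClosed_eq (by fun_prop) (by fun_prop)
    · intro y
      rw [hj, hτ1, hT1, ← map_smul, hj]
      congr 1
      have e1 : ρ (j0 s y) = (res α hα y, 0) := by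
        rw [hρ, j0_apply, LinearMap.prodMap_apply, hres]
      rw [e1, GG_apply, WW_apply, j0_apply]
      simp only [zero_add]
      ext1
      · simp only
        rw [← map_smul]
        congr 1
        ext k
        simp only [Finsupp.sub_apply, mulSeq_apply, Finsupp.smul_apply, smul_eq_mul, hlam]
        have := htk k
        linear_combination -(res α hα y k) * this
      · simp only
        rw [map_smul, mulSeq_VV hB hσ, ← map_smul]
        congr 1
        ext k
        simp only [mulSeq_apply, Finsupp.smul_apply, smul_eq_mul, hlam]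
        ring
  · intro z
    refine h.dense.induction_on (p := fun z => q (τ z) = U (q z)) z ?_ ?_
    · exact isClosed_eq (by fun_prop) (by fun_prop)
    · intro p
      rw [hτ1, hq, hq, hU1, ← map_smul]
      congr 1
      rw [q0_apply, q0_apply, map_sub, hres, sub_zero]
      have e1 : ρ p = (res α hα p.1, res α hα p.2) := by
        rw [hρ, LinearMap.prodMap_apply]
      rw [e1, GG_apply, WW_apply]
      simp only
      rw [mulSeq_VV hB hσ, ← map_sub, ← map_smul]
      congr 1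
      ext k
      simp only [Finsupp.sub_apply, Finsupp.add_apply, mulSeq_apply, Finsupp.smul_apply,
        smul_eq_mul, hlam]
      have h1 := htk k
      have h2 : t⁻¹ = 1 + kap S k * σ k := inv_eq_of_mul_eq_one_right h1
      rw [h2]
      linear_combination (σ k * (res α hα p.1 k)) * h1

end Compat

/-! ### The concrete perturbation sequence -/

def mm (k : ℕ) : ℕ := 3 ^ (2 ^ k)

def BB (k : ℕ) : Finset ℕ := Finset.Ico (mm k) (2 * mm k)

def aa (k : ℕ) : ℕ := 2 * mm k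

lemma mm_pos (k : ℕ) : 0 < mm k := by unfold mm; positivity

lemma mm_lt {j k : ℕ} (h : j < k) : 2 * mm j < mm k := by
  have h1 : 2 ^ j + 1 ≤ 2 ^ k := by
    have : 2 ^ j < 2 ^ k := Nat.pow_lt_pow_right (by norm_num) h
    omega
  have h2 : 3 ^ (2 ^ j + 1) ≤ 3 ^ (2 ^ k) := Nat.pow_le_pow_right (by norm_num) h1
  have h3 : 0 < 3 ^ (2 ^ j) := by positivity
  unfold mm
  rw [pow_succ] at h2
  omega

lemma BB_disj : ∀ j k, j ≠ k → Disjoint (BB j) (BB k) := by
  have key : ∀ j k, j < k → Disjoint (BB j) (BB k) := by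
    intro j k h
    rw [Finset.disjoint_left]
    intro n hn hn'
    rw [BB, Finset.mem_Ico] at hn hn'
    have := mm_lt h
    omega
  intro j k h
  rcases lt_or_gt_of_ne h with h | h
  · exact key j k h
  · exact (key k j h).symm

lemma BB_card (k : ℕ) : (BB k).card = mm k := by
  rw [BB, Nat.card_Ico]; omega

lemma BB_ne (k : ℕ) : (BB k).Nonempty := by
  rw [← Finset.card_pos, BB_card]; exact mm_pos k

lemma aa_inj : Function.Injective aa := by
  have key : StrictMono aa := by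
    intro j k h
    have := mm_lt h
    have := mm_pos k
    unfold aa; omega
  exact key.injective

lemma aa_notMem (k j : ℕ) : aa k ∉ BB j := by
  intro h
  rw [BB, Finset.mem_Ico, aa] at h
  rcases lt_trichotomy j k with h1 | h1 | h1
  · have := mm_lt h1
    have := mm_pos k
    omega
  · subst h1; omega
  · have := mm_lt h1
    omega

lemma log_mm (k : ℕ) : Real.log (mm k) = 2 ^ k * Real.log 3 := by
  rw [mm]; push_cast; rw [Real.log_pow]; push_cast; ring

lemma one_le_log_three : 1 ≤ Real.log 3 := by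
  rw [Real.le_log_iff_exp_le (by norm_num)]
  have := Real.exp_one_lt_d9
  linarith

lemma one_le_log_mm (k : ℕ) : 1 ≤ Real.log (mm k) := by
  rw [log_mm]
  have h1 := one_le_log_three
  have h2 : (1 : ℝ) ≤ 2 ^ k := one_le_pow₀ (by norm_num)
  nlinarith

open Classical in
noncomputable def gg (n : ℕ) : ℝ := if h : ∃ k, n ∈ BB k then 1 / Real.log (mm h.choose) else 0

lemma gg_mem {n k : ℕ} (h : n ∈ BB k) : gg n = 1 / Real.log (mm k) := by
  have h' : ∃ k, n ∈ BB k := ⟨k, h⟩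
  rw [gg, dif_pos h']
  have h2 := h'.choose_spec
  have h3 : h'.choose = k := by
    by_contra hne
    exact Finset.disjoint_left.1 (BB_disj _ _ hne) h2 h
  rw [h3]

lemma gg_notMem {n : ℕ} (h : ∀ k, n ∉ BB k) : gg n = 0 := by
  rw [gg, dif_neg]
  push Not
  exact h

lemma gg_nonneg (n : ℕ) : 0 ≤ gg n := by
  by_cases h : ∃ k, n ∈ BB k
  · obtain ⟨k, hk⟩ := h
    rw [gg_mem hk]
    have := one_le_log_mm k
    positivity
  · push Not at h
    rw [gg_notMem h]

lemma gg_le_one (n : ℕ) : gg n ≤ 1 := by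
  by_cases h : ∃ k, n ∈ BB k
  · obtain ⟨k, hk⟩ := h
    rw [gg_mem hk]
    have := one_le_log_mm k
    rw [div_le_one (by linarith)]
    exact this
  · push Not at h
    rw [gg_notMem h]; norm_num

noncomputable def hh (n : ℕ) : ℝ := 2 / ((n : ℝ) + 1)

lemma hh_nonneg (n : ℕ) : 0 ≤ hh n := by unfold hh; positivity

lemma hh_summable : Summable (fun n : ℕ => (hh n) ^ 2) := by
  have h1 : Summable (fun n : ℕ => 1 / ((n : ℝ)) ^ 2) :=
    Real.summable_one_div_nat_pow.2 (by norm_num)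
  have h2 := ((summable_nat_add_iff 1).2 h1).mul_left 4
  refine h2.congr ?_
  intro n
  rw [hh]
  push_cast
  rw [div_pow]
  ring

noncomputable def HH : ℝ := ∑' n : ℕ, (hh n) ^ 2

lemma HH_nonneg : 0 ≤ HH := tsum_nonneg fun _ => sq_nonneg _

lemma sum_hh_le (F : Finset ℕ) : ∑ n ∈ F, (hh n) ^ 2 ≤ HH :=
  hh_summable.sum_le_tsum F (fun _ _ => sq_nonneg _)

lemma exp_le_hh {n k : ℕ} (h : n ∈ BB k) : Real.exp (-Real.log (mm k)) ≤ hh n := by
  have hm : (0 : ℝ) < mm k := Nat.cast_pos.2 (mm_pos k)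
  rw [Real.exp_neg, Real.exp_log hm, hh, le_div_iff₀ (by positivity), inv_mul_eq_div,
    div_le_iff₀ hm]
  rw [BB, Finset.mem_Ico] at h
  have : n + 1 ≤ 2 * mm k := by omega
  exact_mod_cast this

/-- the constant `c` -/
noncomputable def cc : ℝ := 1 / (8 * (1 + HH))

lemma cc_pos : 0 < cc := by
  have := HH_nonneg
  unfold cc; positivity

lemma cc_le_one : cc ≤ 1 := by
  have := HH_nonneg
  unfold cc
  rw [div_le_one (by positivity)]
  linarith

lemma cc_sq : 2 * cc ^ 2 * (1 + HH) ≤ 1 / 4 := by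
  have h0 := HH_nonneg
  have h1 : cc * (8 * (1 + HH)) = 1 := by
    unfold cc; field_simp
  have h2 := cc_le_one
  have h3 := cc_pos
  have h4 : 2 * cc ^ 2 * (1 + HH) = cc * (cc * (8 * (1 + HH))) / 4 := by ring
  rw [h4, h1]
  linarith

noncomputable def ss (n : ℕ) : ℝ := cc * gg n

lemma ss_nonneg (n : ℕ) : 0 ≤ ss n := mul_nonneg cc_pos.le (gg_nonneg n)

lemma ss_le_one (n : ℕ) : ss n ≤ 1 :=
  mul_le_one₀ cc_le_one (gg_nonneg n) (gg_le_one n)

lemma ss_KP_bound (x : C00) (n : ℕ) :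
    |mulSeq ss (KP x) n| ≤ cc * |x n| + (cc * nrm x) * hh n := by
  rw [mulSeq_apply, abs_mul, abs_of_nonneg (ss_nonneg n)]
  by_cases h : ∃ k, n ∈ BB k
  · obtain ⟨k, hk⟩ := h
    have h1 := abs_KP_le x n (Real.log (mm k))
    have h2 := exp_le_hh hk
    have h3 := one_le_log_mm k
    have h4 : nrm x * Real.exp (-Real.log (mm k)) ≤ nrm x * hh n :=
      mul_le_mul_of_nonneg_left h2 (nrm_nonneg x)
    have h5 : ss n = cc / Real.log (mm k) := by rw [ss, gg_mem hk]; ring
    have h6 : ss n * |KP x n| ≤ ss n * (|x n| * Real.log (mm k) + nrm x * hh n) :=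
      mul_le_mul_of_nonneg_left (by linarith) (ss_nonneg n)
    have h7 : ss n * (|x n| * Real.log (mm k)) = cc * |x n| := by
      rw [h5]; field_simp
    have h8 : ss n * (nrm x * hh n) ≤ cc * (nrm x * hh n) := by
      refine mul_le_mul_of_nonneg_right ?_ (mul_nonneg (nrm_nonneg x) (hh_nonneg n))
      rw [ss]
      exact mul_le_of_le_one_right cc_pos.le (gg_le_one n)
    calc ss n * |KP x n| ≤ ss n * (|x n| * Real.log (mm k) + nrm x * hh n) := h6
      _ = ss n * (|x n| * Real.log (mm k)) + ss n * (nrm x * hh n) := by ring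
      _ ≤ cc * |x n| + cc * (nrm x * hh n) := by rw [h7]; linarith
      _ = _ := by ring
  · push Not at h
    rw [ss, gg_notMem h, mul_zero, zero_mul]
    have := cc_pos
    have := nrm_nonneg x
    have := hh_nonneg n
    positivity

lemma KP_ss_bound (y : C00) (n : ℕ) :
    |KP (mulSeq ss y) n| ≤ 1 * |y n| + (nrm y) * hh n := by
  by_cases h : ∃ k, n ∈ BB k
  · obtain ⟨k, hk⟩ := h
    have h1 := abs_KP_le (mulSeq ss y) n (Real.log (mm k))
    have h2 := exp_le_hh hk
    have h3 := one_le_log_mm k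
    have h4 : nrm (mulSeq ss y) ≤ nrm y := by
      refine nrm_mono ?_
      intro n
      rw [mulSeq_apply, abs_mul, abs_of_nonneg (ss_nonneg n)]
      exact mul_le_of_le_one_left (abs_nonneg _) (ss_le_one n)
    have h5 : ss n = cc / Real.log (mm k) := by rw [ss, gg_mem hk]; ring
    have h6 : |mulSeq ss y n| * Real.log (mm k) = cc * |y n| := by
      rw [mulSeq_apply, abs_mul, abs_of_nonneg (ss_nonneg n), h5]; field_simp
    have h7 : nrm (mulSeq ss y) * Real.exp (-Real.log (mm k)) ≤ nrm y * hh n :=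
      mul_le_mul h4 h2 (Real.exp_nonneg _) (nrm_nonneg _)
    have h8 : cc * |y n| ≤ 1 * |y n| := mul_le_mul_of_nonneg_right cc_le_one (abs_nonneg _)
    linarith
  · push Not at h
    have : mulSeq ss y n = 0 := by rw [mulSeq_apply, ss, gg_notMem h]; ring
    rw [KP_apply, this, zero_mul, abs_zero]
    have := nrm_nonneg y
    have := hh_nonneg n
    positivity

lemma good_ss : Good ss where
  nonneg := ss_nonneg
  le_one := ss_le_one
  half := by
    intro x
    have h1 := nrm_le_of_bound (mulSeq ss (KP x)) x hh cc (cc * nrm x) HH sum_hh_le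
      (ss_KP_bound x)
    have h2 : (nrm (mulSeq ss (KP x))) ^ 2 ≤ (1 / 2 * nrm x) ^ 2 := by
      refine le_trans h1 ?_
      have h3 : 2 * cc ^ 2 * nrm x ^ 2 + 2 * (cc * nrm x) ^ 2 * HH
          = (2 * cc ^ 2 * (1 + HH)) * nrm x ^ 2 := by ring
      rw [h3]
      have := cc_sq
      have h4 : (2 * cc ^ 2 * (1 + HH)) * nrm x ^ 2 ≤ 1 / 4 * nrm x ^ 2 :=
        mul_le_mul_of_nonneg_right this (sq_nonneg _)
      linarith
    have := nrm_nonneg x
    exact le_of_sq_le_sq h2 (by positivity)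
  bdd := by
    refine ⟨2 + 2 * HH, ?_⟩
    intro y
    have h1 := nrm_le_of_bound (KP (mulSeq ss y)) y hh 1 (nrm y) HH sum_hh_le (KP_ss_bound y)
    have h0 := HH_nonneg
    have h2 : (nrm (KP (mulSeq ss y))) ^ 2 ≤ ((2 + 2 * HH) * nrm y) ^ 2 := by
      refine le_trans h1 ?_
      have h3 : 2 * 1 ^ 2 * nrm y ^ 2 + 2 * (nrm y) ^ 2 * HH
          = (2 + 2 * HH) * nrm y ^ 2 := by ring
      rw [h3, mul_pow]
      refine mul_le_mul_of_nonneg_right ?_ (sq_nonneg _)
      nlinarith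
    have := nrm_nonneg y
    exact le_of_sq_le_sq h2 (by positivity)

lemma ss_aa (k : ℕ) : ss (aa k) = 0 := by
  rw [ss, gg_notMem (aa_notMem k), mul_zero]

noncomputable def sig (k : ℕ) : ℝ := cc / Real.log (mm k)

lemma ss_BB (k : ℕ) : ∀ n ∈ BB k, ss n = sig k := by
  intro n hn
  rw [ss, gg_mem hn, sig]; ring

lemma sig_nonneg (k : ℕ) : 0 ≤ sig k := by
  have := one_le_log_mm k
  have := cc_pos
  unfold sig; positivity

lemma sig_summable : Summable sig := by
  have h1 : Summable (fun k : ℕ => (1 / 2 : ℝ) ^ k) := summable_geometric_two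
  refine Summable.of_nonneg_of_le sig_nonneg (fun k => ?_) h1
  rw [sig, log_mm, div_le_iff₀ (by have := one_le_log_three; positivity)]
  have h2 : (1 / 2 : ℝ) ^ k * (2 ^ k * Real.log 3) = Real.log 3 := by
    rw [← mul_assoc, ← mul_pow]; norm_num
  rw [h2]
  have := one_le_log_three
  have := cc_le_one
  linarith

lemma kap_BB (k : ℕ) : kap BB k * sig k = cc / 2 := by
  rw [kap, sig, BB_card]
  have := one_le_log_mm k
  field_simp

/-! ### Compact operators on orthonormal sequences -/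

lemma compact_orthonormal (K : L2 →L[ℝ] L2) (hK : IsCompactOperator K) {e : ℕ → L2}
    (he : Orthonormal ℝ e) : Tendsto (fun k => K (e k)) atTop (𝓝 0) := by
  have hweak : ∀ h : L2, Tendsto (fun k => ⟪e k, h⟫_ℝ) atTop (𝓝 0) := by
    intro h
    have h1 := (he.inner_products_summable h).tendsto_atTop_zero
    have h2 : Tendsto (fun k => ‖⟪e k, h⟫_ℝ‖) atTop (𝓝 0) := by
      have h3 := (Real.continuous_sqrt.tendsto 0).comp h1
      simp only [Real.sqrt_zero] at h3
      refine h3.congr ?_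
      intro k
      simp [Real.sqrt_sq_eq_abs]
    exact tendsto_zero_iff_norm_tendsto_zero.2 h2
  refine tendsto_of_subseq_tendsto ?_
  intro ns hns
  have hcomp := hK.isCompact_closure_image_closedBall 1
  have hmem : ∀ n, K (e (ns n)) ∈ closure (K '' Metric.closedBall 0 1) := by
    intro n
    refine subset_closure ⟨e (ns n), ?_, rfl⟩
    rw [mem_closedBall_zero_iff, he.1]
  obtain ⟨z, _, φ, hφ, hz⟩ := hcomp.tendsto_subseq hmem
  refine ⟨φ, ?_⟩
  have hz0 : z = 0 := by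
    have h1 : Tendsto (fun n => ⟪K (e (ns (φ n))), z⟫_ℝ) atTop (𝓝 ⟪z, z⟫_ℝ) :=
      Tendsto.inner hz tendsto_const_nhds
    have h2 : Tendsto (fun n => ⟪K (e (ns (φ n))), z⟫_ℝ) atTop (𝓝 0) := by
      have h3 := (hweak (ContinuousLinearMap.adjoint K z)).comp (hns.comp hφ.tendsto_atTop)
      refine h3.congr ?_
      intro n
      simp only [Function.comp]
      rw [ContinuousLinearMap.adjoint_inner_right]
    have h4 := tendsto_nhds_unique h1 h2
    exact inner_self_eq_zero.1 h4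
  rw [hz0] at hz
  exact hz

/-! ### Choice of signs -/

/-- flat sums with signs: some choice makes the norm of the sum small -/
lemma exists_signs (x : ℕ → L2) (B : Finset ℕ) :
    ∃ ε : ℕ → ℝ, (∀ n, |ε n| = 1) ∧ ‖∑ n ∈ B, ε n • x n‖ ^ 2 ≤ ∑ n ∈ B, ‖x n‖ ^ 2 := by
  classical
  induction B using Finset.induction_on with
  | empty => exact ⟨fun _ => 1, by simp, by simp⟩
  | insert a B ha ih =>
    obtain ⟨ε, hε, hle⟩ := ih
    set y := ∑ n ∈ B, ε n • x n with hy
    obtain ⟨δ, hδ, hδ'⟩ : ∃ δ : ℝ, |δ| = 1 ∧ δ * ⟪x a, y⟫_ℝ ≤ 0 := by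
      rcases le_total 0 ⟪x a, y⟫_ℝ with h | h
      · exact ⟨-1, by simp, by linarith⟩
      · exact ⟨1, by simp, by linarith⟩
    refine ⟨Function.update ε a δ, ?_, ?_⟩
    · intro n
      by_cases hn : n = a
      · rw [hn, Function.update_self]; exact hδ
      · rw [Function.update_of_ne hn]; exact hε n
    · rw [Finset.sum_insert ha, Finset.sum_insert ha, Function.update_self]
      have h1 : ∑ n ∈ B, Function.update ε a δ n • x n = y := by
        rw [hy]
        refine Finset.sum_congr rfl ?_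
        intro n hn
        have : n ≠ a := fun h => ha (h ▸ hn)
        rw [Function.update_of_ne this]
      rw [h1, norm_add_sq_real, norm_smul, Real.norm_eq_abs, hδ, one_mul, real_inner_smul_left]
      linarith

lemma vv_eq_sum (S : ℕ → Finset ℕ) (ε : ℕ → ℝ) (k : ℕ) :
    vv S ε k = ∑ n ∈ S k, (ε n / Real.sqrt (S k).card) • ee n := by
  ext m
  rw [vv, Finsupp.indicator_apply, Finsupp.finsetSum_apply]
  by_cases hm : m ∈ S k
  · rw [dif_pos hm, Finset.sum_eq_single m]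
    · simp [ee]
    · intro b _ hb; simp [ee, hb]
    · intro h; exact absurd hm h
  · rw [dif_neg hm, Finset.sum_eq_zero]
    intro b hb
    have : b ≠ m := fun h => hm (h ▸ hb)
    simp [ee, this]

/-- In each block there is a sign pattern and a point such that the flat vector has image under
`β` no larger than the image of the basis vector at the point. -/
lemma exists_signs_block (β : L2 →L[ℝ] L2) (B : Finset ℕ) (hB : B.Nonempty) :
    ∃ ε : ℕ → ℝ, ∃ b ∈ B, (∀ n, |ε n| = 1) ∧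
      ‖β (toL2 (∑ n ∈ B, (ε n / Real.sqrt B.card) • ee n))‖ ≤ ‖β (toL2 (ee b))‖ := by
  obtain ⟨ε, hε, hle⟩ := exists_signs (fun n => β (toL2 (ee n))) B
  obtain ⟨b, hb, hmax⟩ := B.exists_max_image (fun n => ‖β (toL2 (ee n))‖) hB
  refine ⟨ε, b, hb, hε, ?_⟩
  have hc : (0 : ℝ) < B.card := Nat.cast_pos.2 (Finset.card_pos.2 hB)
  have h1 : β (toL2 (∑ n ∈ B, (ε n / Real.sqrt B.card) • ee n))
      = (Real.sqrt B.card)⁻¹ • ∑ n ∈ B, ε n • β (toL2 (ee n)) := by
    rw [map_sum, map_sum, Finset.smul_sum]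
    refine Finset.sum_congr rfl ?_
    intro n _
    rw [map_smul, map_smul, smul_smul]
    congr 1
    ring
  have h2 : ‖β (toL2 (∑ n ∈ B, (ε n / Real.sqrt B.card) • ee n))‖ ^ 2
      ≤ ‖β (toL2 (ee b))‖ ^ 2 := by
    rw [h1, norm_smul, mul_pow, norm_inv, Real.norm_eq_abs, abs_of_nonneg (Real.sqrt_nonneg _),
      inv_pow, Real.sq_sqrt hc.le]
    have h3 : ∑ n ∈ B, ‖β (toL2 (ee n))‖ ^ 2 ≤ B.card * ‖β (toL2 (ee b))‖ ^ 2 := by
      rw [← nsmul_eq_mul]
      refine Finset.sum_le_card_nsmul _ _ _ ?_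
      intro n hn
      exact pow_le_pow_left₀ (norm_nonneg _) (hmax n hn) 2
    rw [inv_mul_le_iff₀ hc]
    exact le_trans hle h3
  exact le_of_sq_le_sq h2 (norm_nonneg _)

/-! ### The restriction operator on `ℓ₂` -/

noncomputable def RR (α : ℕ → ℕ) (hα : Function.Injective α) : L2 →L[ℝ] L2 :=
  (toL2 ∘ₗ res α hα).extendOfNorm toL2

lemma RR_apply (α : ℕ → ℕ) (hα : Function.Injective α) (y : C00) :
    RR α hα (toL2 y) = toL2 (res α hα y) := by
  refine LinearMap.extendOfNorm_eq denseRange_toL2 ⟨1, ?_⟩ y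
  intro x
  rw [LinearMap.comp_apply, norm_toL2, norm_toL2, one_mul]
  exact nrm_res_le α hα x

section Main

variable {Z : Type} [NormedAddCommGroup Z] [NormedSpace ℝ Z] {ι : (C00 × C00) →ₗ[ℝ] Z}

lemma pair_limit (h : IsKaltonPeck Z ι) {s : ℕ → ℝ} {j : L2 →L[ℝ] Z} {q : Z →L[ℝ] L2}
    (hj : ∀ y : C00, j (toL2 y) = ι (j0 s y)) (hq : ∀ p : C00 × C00, q (ι p) = toL2 (q0 s p))
    {β : L2 →L[ℝ] L2} (hβ : ∀ T U : L2 →L[ℝ] L2, IsCompatible j q T U →
      IsCompactOperator (β ∘L T - U ∘L β))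
    {S : ℕ → Finset ℕ} {ε : ℕ → ℝ} (hB : Blocks S ε) {α : ℕ → ℕ} (hα : Function.Injective α)
    (hsα : ∀ k, s (α k) = 0) {σ : ℕ → ℝ} (hσ : ∀ k, ∀ n ∈ S k, s n = σ k)
    (hσ0 : ∀ k, 0 ≤ σ k) (hσs : Summable σ) {t : ℝ} (ht : 0 < t)
    (htk : ∀ k, t * (1 + kap S k * σ k) = 1) :
    Tendsto (fun k => t * ‖β (toL2 (vv S ε k))‖ - t⁻¹ * ‖RR α hα (β (toL2 (ee (α k))))‖)
      atTop (𝓝 0) := by
  obtain ⟨T, U, hTU, hT, hU⟩ := exists_compat h hj hq hB hα hsα hσ hσ0 hσs ht htk
  have hK := hβ T U hTU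
  have hort : Orthonormal ℝ (fun k => toL2 (ee (α k))) := toL2_orthonormal.comp α hα
  have h1 := compact_orthonormal _ hK hort
  have hUn : ∀ x : L2, ‖U x‖ = t⁻¹ * ‖RR α hα x‖ := by
    intro x
    refine denseRange_toL2.induction_on (p := fun x => ‖U x‖ = t⁻¹ * ‖RR α hα x‖) x ?_ ?_
    · exact isClosed_eq (by fun_prop) (by fun_prop)
    · intro y
      rw [hU, RR_apply, norm_smul, norm_toL2, norm_toL2, nrm_VV hB, Real.norm_eq_abs,
        abs_of_pos (inv_pos.2 ht)]
  have hTe : ∀ k, T (toL2 (ee (α k))) = t • toL2 (vv S ε k) := by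
    intro k
    rw [hT, ← VV_ee]
    congr 3
    ext i
    rw [res_apply, ee, ee, Finsupp.single_apply, Finsupp.single_apply]
    simp [hα.eq_iff]
  refine squeeze_zero_norm (a := fun k => ‖(β ∘L T - U ∘L β) (toL2 (ee (α k)))‖) ?_ ?_
  · intro k
    rw [sub_apply, ContinuousLinearMap.comp_apply,
      ContinuousLinearMap.comp_apply, hTe, map_smul, Real.norm_eq_abs]
    have h2 : t * ‖β (toL2 (vv S ε k))‖ = ‖t • β (toL2 (vv S ε k))‖ := by
      rw [norm_smul, Real.norm_eq_abs, abs_of_pos ht]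
    rw [h2, ← hUn]
    exact abs_norm_sub_norm_le _ _
  · exact tendsto_zero_iff_norm_tendsto_zero.1 h1

theorem main_beta (h : IsKaltonPeck Z ι) {j : L2 →L[ℝ] Z} {q : Z →L[ℝ] L2}
    (hj : ∀ y : C00, j (toL2 y) = ι (j0 ss y)) (hq : ∀ p : C00 × C00, q (ι p) = toL2 (q0 ss p))
    (β : L2 →L[ℝ] L2) {b : ℝ} (hb : 0 < b) (hβb : ∀ x, b * ‖x‖ ≤ ‖β x‖) :
    ∃ T U : L2 →L[ℝ] L2, IsCompatible j q T U ∧ ¬ IsCompactOperator (β ∘L T - U ∘L β) := by
  by_contra hcon
  push Not at hcon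
  -- choice of signs and points
  choose ε' bb hbb hε' hle using fun k => exists_signs_block β (BB k) (BB_ne k)
  classical
  set ε : ℕ → ℝ := fun n => if hn : ∃ k, n ∈ BB k then ε' hn.choose n else 1 with hεdef
  have hεk : ∀ k, ∀ n ∈ BB k, ε n = ε' k n := by
    intro k n hn
    have h' : ∃ k, n ∈ BB k := ⟨k, hn⟩
    have h3 : h'.choose = k := by
      by_contra hne
      exact Finset.disjoint_left.1 (BB_disj _ _ hne) h'.choose_spec hn
    rw [hεdef]
    simp only
    rw [dif_pos h', h3]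
  have hε1 : ∀ n, |ε n| = 1 := by
    intro n
    by_cases hn : ∃ k, n ∈ BB k
    · obtain ⟨k, hk⟩ := hn
      rw [hεk k n hk]; exact hε' k n
    · rw [hεdef]; simp only; rw [dif_neg hn]; simp
  have hB : Blocks BB ε := ⟨BB_disj, BB_ne, hε1⟩
  -- (c)
  set t : ℝ := (1 + cc / 2)⁻¹ with ht
  have hcc := cc_pos
  have ht0 : 0 < t := by rw [ht]; positivity
  have ht1 : t < 1 := by
    rw [ht]
    exact inv_lt_one_of_one_lt₀ (by linarith)
  have hC := pair_limit h hj hq hcon hB aa_inj ss_aa ss_BB sig_nonneg sig_summable ht0 (by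
    intro k
    rw [kap_BB, ht]
    exact inv_mul_cancel₀ (by positivity))
  -- (b)
  have hbinj : ∀ i k, i ≠ k → bb i ≠ bb k := by
    intro i k hik heq
    exact Finset.disjoint_left.1 (BB_disj i k hik) (hbb i) (heq ▸ hbb k)
  have hBb : Blocks (fun k => {bb k}) (fun _ => 1) :=
    ⟨fun i k hik => by simpa using (hbinj i k hik), fun k => by simp, fun _ => by simp⟩
  have hBpair := pair_limit h hj hq hcon hBb aa_inj ss_aa (σ := sig) (by
    intro k n hn
    rw [Finset.mem_singleton] at hn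
    rw [hn]
    exact ss_BB k _ (hbb k)) sig_nonneg sig_summable one_pos (by
    intro k
    simp [kap])
  -- (a)
  have hBa : Blocks (fun k => {aa k}) (fun _ => 1) :=
    ⟨fun i k hik => by simpa using (fun he => hik (aa_inj he)), fun k => by simp,
      fun _ => by simp⟩
  have hApair := pair_limit h hj hq hcon hBa aa_inj ss_aa (σ := fun _ => 0) (by
    intro k n hn
    rw [Finset.mem_singleton] at hn
    rw [hn]
    exact ss_aa k) (fun _ => le_rfl) summable_zero one_pos (by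
    intro k
    simp)
  have hvs : ∀ (f : ℕ → ℕ) (k : ℕ), vv (fun k => {f k}) (fun _ => 1) k = ee (f k) := by
    intro f k
    rw [vv_eq_sum]
    simp
  simp only [hvs, one_mul, inv_one] at hBpair hApair
  -- conclusion
  set u : ℕ → ℝ := fun k => ‖RR aa aa_inj (β (toL2 (ee (aa k))))‖ with hu
  have hu0 : ∀ k, 0 ≤ u k := fun k => norm_nonneg _
  have hvle : ∀ k, ‖β (toL2 (vv BB ε k))‖ ≤ ‖β (toL2 (ee (bb k)))‖ := by
    intro k
    have h1 := hle k
    rw [vv_eq_sum]
    have h2 : ∑ n ∈ BB k, (ε n / Real.sqrt (BB k).card) • ee n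
        = ∑ n ∈ BB k, (ε' k n / Real.sqrt (BB k).card) • ee n :=
      Finset.sum_congr rfl (fun n hn => by rw [hεk k n hn])
    rw [h2]
    exact h1
  -- u → 0
  have hulim : Tendsto u atTop (𝓝 0) := by
    have h1 : Tendsto (fun k => t * (‖β (toL2 (ee (bb k)))‖ - u k)
        - (t * ‖β (toL2 (vv BB ε k))‖ - t⁻¹ * u k)) atTop (𝓝 (t * 0 - 0)) :=
      (hBpair.const_mul t).sub hC
    rw [mul_zero, sub_zero] at h1
    have hpos : 0 < t⁻¹ - t := by
      have : 1 < t⁻¹ := (one_lt_inv₀ ht0).2 ht1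
      linarith
    have h2 : Tendsto (fun k => (t⁻¹ - t)⁻¹ * (t * (‖β (toL2 (ee (bb k)))‖ - u k)
        - (t * ‖β (toL2 (vv BB ε k))‖ - t⁻¹ * u k))) atTop (𝓝 0) := by
      simpa using h1.const_mul (t⁻¹ - t)⁻¹
    refine squeeze_zero hu0 ?_ h2
    intro k
    have h3 : t * ‖β (toL2 (vv BB ε k))‖ ≤ t * ‖β (toL2 (ee (bb k)))‖ :=
      mul_le_mul_of_nonneg_left (hvle k) ht0.le
    rw [inv_mul_eq_div, le_div_iff₀ hpos]
    nlinarith
  have hfin : Tendsto (fun k => ‖β (toL2 (ee (aa k)))‖) atTop (𝓝 0) := by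
    have h1 := hApair.add hulim
    rw [add_zero] at h1
    refine h1.congr ?_
    intro k
    simp only [hu]
    ring
  have hge : ∀ k, b ≤ ‖β (toL2 (ee (aa k)))‖ := by
    intro k
    have := hβb (toL2 (ee (aa k)))
    rw [norm_toL2, nrm_ee, mul_one] at this
    exact this
  have := ge_of_tendsto' hfin hge
  linarith

/-- The main theorem, for every model of the Kalton-Peck space. -/
theorem main_theorem (h : IsKaltonPeck Z ι) :
    ∃ (j : L2 →L[ℝ] Z) (q : Z →L[ℝ] L2), IsExactSeq j q ∧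
      (∃ T U : L2 →L[ℝ] L2, IsCompatible j q T U ∧ ¬ IsCompactOperator (T - U)) ∧
      (∀ β : L2 ≃L[ℝ] L2, ∃ T U : L2 →L[ℝ] L2, IsCompatible j q T U ∧
        ¬ IsCompactOperator (T - (β.symm : L2 →L[ℝ] L2) ∘L U ∘L (β : L2 →L[ℝ] L2))) ∧
      (∀ (β : L2 →L[ℝ] L2) (b : ℝ), 0 < b → (∀ x, b * ‖x‖ ≤ ‖β x‖) →
        ∃ T U : L2 →L[ℝ] L2, IsCompatible j q T U ∧
          ¬ IsCompactOperator (β ∘L T - U ∘L β)) := by
  obtain ⟨j, q, hex, hj, hq⟩ := exists_jq h good_ss
  refine ⟨j, q, hex, ?_, ?_, ?_⟩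
  · obtain ⟨T, U, hTU, hnc⟩ := main_beta h hj hq (ContinuousLinearMap.id ℝ L2) one_pos
      (by intro x; simp)
    refine ⟨T, U, hTU, ?_⟩
    simpa using hnc
  · intro β
    obtain ⟨c, hc, hβ⟩ : ∃ c : ℝ, 0 < c ∧ ∀ x, c * ‖x‖ ≤ ‖β x‖ := by
      refine ⟨(‖(β.symm : L2 →L[ℝ] L2)‖ + 1)⁻¹, by positivity, ?_⟩
      intro x
      rw [inv_mul_le_iff₀ (by positivity)]
      have h1 := (β.symm : L2 →L[ℝ] L2).le_opNorm (β x)
      have h2 : (β.symm : L2 →L[ℝ] L2) (β x) = x := β.symm_apply_apply x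
      rw [h2] at h1
      have := norm_nonneg (β x)
      linarith
    obtain ⟨T, U, hTU, hnc⟩ := main_beta h hj hq (β : L2 →L[ℝ] L2) hc hβ
    refine ⟨T, U, hTU, ?_⟩
    intro hcomp
    apply hnc
    have h3 : (β : L2 →L[ℝ] L2) ∘L T - U ∘L (β : L2 →L[ℝ] L2)
        = (β : L2 →L[ℝ] L2) ∘L (T - (β.symm : L2 →L[ℝ] L2) ∘L U ∘L (β : L2 →L[ℝ] L2)) := by
      ext x : 1
      simp
    rw [h3]
    exact hcomp.clm_comp _
  · intro β b hb hβ
    exact main_beta h hj hq β hb hβ

end Main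

end Pool.Agent.Lib.MP_23ded2_an
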